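import Pool.Agent.Hhelper78.RandomEdge.Count

/-!
# Solving the recursion
-/

namespace Pool.Agent.Hhelper78.RandomEdge

namespace Sys

variable {V : Type} [Fintype V] [DecidableEq V] {n k : ℕ} (S : Sys V n k)

/-- few subsets of size less than `k` -/
lemma card_small_le (hk : 1 ≤ k) (hn : 1 ≤ n) :
    ((Finset.univ : Finset (Finset (Fin n))).filter fun s => s.card < k).card ≤ k * n ^ (k - 1) := by
  classical
  have h1 : ((Finset.univ : Finset (Finset (Fin n))).filter fun s => s.card < k) ⊆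
      (Finset.range k).biUnion fun j => Finset.powersetCard j (Finset.univ : Finset (Fin n)) := by
    intro s hs
    rw [Finset.mem_filter] at hs
    exact Finset.mem_biUnion.mpr ⟨s.card, Finset.mem_range.mpr hs.2,
      Finset.mem_powersetCard.mpr ⟨Finset.subset_univ _, rfl⟩⟩
  refine (Finset.card_le_card h1).trans ?_
  refine (Finset.card_biUnion_le_card_mul _ _ (n ^ (k - 1)) fun j hj => ?_).trans ?_
  · rw [Finset.card_powersetCard, Finset.card_univ, Fintype.card_fin]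
    exact (Nat.choose_le_pow n j).trans (Nat.pow_le_pow_right hn (by
      have := Finset.mem_range.mp hj; omega))
  · rw [Finset.card_range]

lemma unb_le (hk : 1 ≤ k) (hn : 1 ≤ n) : Flow.unb S ≤ 2 * k * n ^ (k - 1) := by
  classical
  have hsub : (Finset.univ.filter fun v => ¬ S.Bal v) ⊆
      (Finset.univ.filter fun v => (S.out v).card < k) ∪
      (Finset.univ.filter fun v => (S.inn v).card < k) := by
    intro v hv
    have hv' : ¬ (S.out v).card = k := (Finset.mem_filter.mp hv).2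
    have := S.card_inn_add v
    rw [Finset.mem_union, Finset.mem_filter, Finset.mem_filter]
    by_cases h : (S.out v).card < k
    · left; exact ⟨Finset.mem_univ _, h⟩
    · right; exact ⟨Finset.mem_univ _, by omega⟩
  have h1 : (Finset.univ.filter fun v => (S.out v).card < k).card ≤ k * n ^ (k - 1) := by
    refine le_trans (Finset.card_le_card_of_injOn S.out (fun v hv => ?_) ?_) (card_small_le hk hn)
    · rw [Finset.mem_coe, Finset.mem_filter]
      exact ⟨Finset.mem_univ _, (Finset.mem_filter.mp hv).2⟩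
    · intro v _ w _ h
      exact S.out_inj v w h
  have h2 : (Finset.univ.filter fun v => (S.inn v).card < k).card ≤ k * n ^ (k - 1) := by
    refine le_trans (Finset.card_le_card_of_injOn S.inn (fun v hv => ?_) ?_) (card_small_le hk hn)
    · rw [Finset.mem_coe, Finset.mem_filter]
      exact ⟨Finset.mem_univ _, (Finset.mem_filter.mp hv).2⟩
    · intro v _ w _ h
      exact S.in_inj v w h
  have h3 : Flow.unb S = (Finset.univ.filter fun v => ¬ S.Bal v).card := by
    unfold Flow.unb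
    rfl
  rw [h3]
  calc _ ≤ _ := Finset.card_le_card hsub
    _ ≤ _ := Finset.card_union_le _ _
    _ ≤ k * n ^ (k - 1) + k * n ^ (k - 1) := Nat.add_le_add h1 h2
    _ = _ := by ring

end Sys

namespace Flow

variable {V : Type} [Fintype V] [DecidableEq V] {n k : ℕ} {S : Sys V n k} {v0 : V}
  (F : Flow S v0)

lemma cnt_le_pow (_hn : 1 ≤ n) (δ : ℝ) : (F.cnt δ : ℝ) ≤ (n : ℝ) ^ k := by
  classical
  have h1 : F.cnt δ ≤ n ^ k := by
    have h2 : (Finset.univ.filter fun v => S.Bal v ∧ v ≠ v0 ∧ δ ≤ F.p v).card ≤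
        (Finset.powersetCard k (Finset.univ : Finset (Fin n))).card := by
      refine Finset.card_le_card_of_injOn S.out (fun v hv => ?_) fun v _ w _ h => S.out_inj v w h
      rw [Finset.mem_coe, Finset.mem_powersetCard]
      exact ⟨Finset.subset_univ _, (Finset.mem_filter.mp hv).2.1⟩
    rw [Finset.card_powersetCard, Finset.card_univ, Fintype.card_fin] at h2
    have h3 : F.cnt δ = (Finset.univ.filter fun v => S.Bal v ∧ v ≠ v0 ∧ δ ≤ F.p v).card := by
      unfold cnt
      rfl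
    rw [h3]
    exact h2.trans (Nat.choose_le_pow n k)
  exact_mod_cast h1

/-- constant of the recursion -/
noncomputable def cc (k : ℕ) : ℝ :=
  18 * (k : ℝ) ^ 2 * ((2 * k).choose (k - 1)) * ((2 * k - 1).choose (k - 1))

lemma one_le_cc (hk : 2 ≤ k) : 1 ≤ cc k := by
  unfold cc
  have h1 : (1 : ℝ) ≤ ((2 * k).choose (k - 1)) := by
    exact_mod_cast Nat.choose_pos (by omega : k - 1 ≤ 2 * k)
  have h2 : (1 : ℝ) ≤ ((2 * k - 1).choose (k - 1)) := by
    exact_mod_cast Nat.choose_pos (by omega : k - 1 ≤ 2 * k - 1)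
  have h3 : (2 : ℝ) ≤ k := by exact_mod_cast hk
  have h4 : (1 : ℝ) ≤ 18 * (k : ℝ) ^ 2 := by nlinarith
  calc (1 : ℝ) = 1 * 1 * 1 := by norm_num
    _ ≤ _ := by gcongr

lemma cnt_rec (hk : 2 ≤ k) (hn : 1 ≤ n) {δ : ℝ} (hδ : 0 < δ) (hδ' : 1 / δ ≤ (n : ℝ) ^ (k - 1)) :
    (F.cnt δ : ℝ) ≤ cc k / δ * ((n : ℝ) ^ (k - 1) +
      Real.sqrt (F.cnt (δ / 2) * (n : ℝ) ^ (k - 1))) := by
  have hk0 : (0 : ℝ) < k := by exact_mod_cast (by omega : 0 < k)
  have hk2 : (2 : ℝ) ≤ k := by exact_mod_cast hk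
  set a := δ / k with ha
  have hapos : 0 < a := div_pos hδ hk0
  have hka : (k : ℝ) * a = δ := by rw [ha, mul_div_cancel₀ _ hk0.ne']
  obtain ⟨T, hT⟩ : ∃ T : ℕ, ∀ v, S.rank v < T :=
    ⟨(Finset.univ.sup S.rank) + 1, fun v => Nat.lt_succ_of_le (Finset.le_sup (Finset.mem_univ v))⟩
  set x : ℝ := (n : ℝ) ^ (k - 1) with hx
  have hx1 : 1 ≤ x := one_le_pow₀ (by exact_mod_cast hn)
  have hU : (unb S : ℝ) ≤ 2 * k * x := by
    have := S.unb_le (by omega) hn
    rw [hx]
    exact_mod_cast this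
  have h1 := F.cnt_le hapos hk hT
  have h2 := F.card_Act_le hapos hk T
  rw [hka] at h1 h2
  set c1 : ℝ := ((2 * k).choose (k - 1) : ℝ) with hc1
  set c2 : ℝ := ((2 * k - 1).choose (k - 1) : ℝ) with hc2
  have hc1nn : 0 ≤ c1 := Nat.cast_nonneg _
  have hc2nn : 0 ≤ c2 := Nat.cast_nonneg _
  have hcnt : 0 ≤ (F.cnt (δ / 2) : ℝ) := Nat.cast_nonneg _
  have h3 : 32 * k * (unb S : ℝ) + 16 / a ≤ (9 * k) ^ 2 * x := by
    have e1 : 16 / a = 16 * k * (1 / δ) := by rw [ha]; field_simp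
    rw [e1]
    have e2 : 16 * (k : ℝ) * (1 / δ) ≤ 16 * k * x := by gcongr
    have e3 : 32 * (k : ℝ) * (unb S : ℝ) ≤ 32 * k * (2 * k * x) := by gcongr
    have e4 : 16 * (k : ℝ) * x ≤ 8 * (k : ℝ) * k * x := by
      have : 16 * (k : ℝ) ≤ 8 * k * k := by nlinarith
      gcongr
    nlinarith [mul_pos (mul_pos hk0 hk0) (lt_of_lt_of_le zero_lt_one hx1)]
  have h4 : Real.sqrt (F.cnt (δ / 2) * (32 * k * (unb S : ℝ) + 16 / a)) ≤
      9 * k * Real.sqrt (F.cnt (δ / 2) * x) := by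
    have e1 : F.cnt (δ / 2) * (32 * k * (unb S : ℝ) + 16 / a) ≤
        (9 * k) ^ 2 * (F.cnt (δ / 2) * x) := by
      calc _ ≤ F.cnt (δ / 2) * ((9 * k) ^ 2 * x) := mul_le_mul_of_nonneg_left h3 hcnt
        _ = _ := by ring
    have e2 := Real.sqrt_le_sqrt e1
    rwa [Real.sqrt_mul (sq_nonneg _), Real.sqrt_sq (by positivity)] at e2
  have h5 : ((F.Act a T).card : ℝ) ≤ 9 * k * c1 * (x + Real.sqrt (F.cnt (δ / 2) * x)) := by
    have e1 : (unb S : ℝ) + 1 ≤ 9 * k * x := by nlinarith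
    have e2 : c1 * ((unb S : ℝ) + 1) ≤ c1 * (9 * k * x) := mul_le_mul_of_nonneg_left e1 hc1nn
    have e3 := mul_le_mul_of_nonneg_left h4 hc1nn
    calc _ ≤ _ := h2
      _ ≤ c1 * (9 * k * x) + c1 * (9 * k * Real.sqrt (F.cnt (δ / 2) * x)) := add_le_add e2 e3
      _ = _ := by ring
  have h6 : 2 / a * c2 = 2 * k * c2 / δ := by rw [ha]; field_simp
  rw [h6] at h1
  calc _ ≤ _ := h1
    _ ≤ (9 * k * c1 * (x + Real.sqrt (F.cnt (δ / 2) * x))) * (2 * k * c2 / δ) :=
        mul_le_mul_of_nonneg_right h5 (by positivity)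
    _ = _ := by unfold cc; rw [← hc1, ← hc2]; ring

/-- Solution of the recursion. -/
lemma cnt_bound (hk : 2 ≤ k) (hn : 1 ≤ n) : ∀ m : ℕ, ∀ δ : ℝ, 0 < δ → δ ≤ 1 →
    δ ≤ 2 ^ m * (3 * cc k / Real.sqrt n) →
    (F.cnt δ : ℝ) ≤ (3 * cc k) ^ 2 * (n : ℝ) ^ (k - 1) / δ ^ 2 := by
  have hn1 : (1 : ℝ) ≤ n := by exact_mod_cast hn
  have hn0 : (0 : ℝ) < n := by linarith
  have hsn : 1 ≤ Real.sqrt n := by rw [Real.one_le_sqrt]; exact hn1
  have hsq : Real.sqrt n ^ 2 = n := Real.sq_sqrt hn0.le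
  have hc := one_le_cc hk
  set c := cc k with hcdef
  set x : ℝ := (n : ℝ) ^ (k - 1) with hx
  have hx1 : 1 ≤ x := one_le_pow₀ hn1
  have hnx : (n : ℝ) ≤ x := by
    rw [hx]
    calc (n : ℝ) = n ^ 1 := (pow_one _).symm
      _ ≤ _ := pow_le_pow_right₀ hn1 (by omega)
  have hnk : (n : ℝ) ^ k = n * x := by
    rw [hx, ← pow_succ']
    congr 1; omega
  have hbase : ∀ δ : ℝ, 0 < δ → δ ≤ 3 * c / Real.sqrt n →
      (F.cnt δ : ℝ) ≤ (3 * c) ^ 2 * x / δ ^ 2 := by
    intro δ hδ hle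
    rw [le_div_iff₀ (by positivity)]
    have h1 : δ ^ 2 ≤ (3 * c / Real.sqrt n) ^ 2 := by gcongr
    rw [div_pow, hsq] at h1
    calc (F.cnt δ : ℝ) * δ ^ 2 ≤ (n * x) * ((3 * c) ^ 2 / n) := by
          rw [← hnk]
          exact mul_le_mul (F.cnt_le_pow hn δ) h1 (by positivity) (by positivity)
      _ = _ := by field_simp
  intro m
  induction m with
  | zero =>
    intro δ hδ _ hle
    rw [pow_zero, one_mul] at hle
    exact hbase δ hδ hle
  | succ m ih =>
    intro δ hδ hδ1 hle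
    by_cases hsmall : δ ≤ 3 * c / Real.sqrt n
    · exact hbase δ hδ hsmall
    · have hsmall' := not_le.mp hsmall
      have h1 := ih (δ / 2) (by positivity) (by linarith) (by
        rw [pow_succ] at hle; linarith)
      have h2 : 1 / δ ≤ x := by
        have e1 : 1 / Real.sqrt n ≤ δ := by
          refine le_trans ?_ hsmall'.le
          gcongr
          linarith
        have e2 : 1 / δ ≤ Real.sqrt n := by
          rw [div_le_iff₀ hδ]
          rw [div_le_iff₀ (by positivity)] at e1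
          linarith
        have e3 : Real.sqrt n ≤ n := by nlinarith
        linarith
      have h3 := F.cnt_rec hk hn hδ h2
      have h4 : Real.sqrt (F.cnt (δ / 2) * x) ≤ 2 * (3 * c) * x / δ := by
        have e1 : F.cnt (δ / 2) * x ≤ (2 * (3 * c) * x / δ) ^ 2 := by
          calc F.cnt (δ / 2) * x ≤ ((3 * c) ^ 2 * x / (δ / 2) ^ 2) * x := by gcongr
            _ = _ := by field_simp
        have e2 := Real.sqrt_le_sqrt e1
        rwa [Real.sqrt_sq (by positivity)] at e2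
      have h5 : x + Real.sqrt (F.cnt (δ / 2) * x) ≤ 9 * c * x / δ := by
        have e1 : x ≤ 3 * c * x / δ := by
          rw [le_div_iff₀ hδ]
          nlinarith
        calc x + Real.sqrt (F.cnt (δ / 2) * x) ≤ 3 * c * x / δ + 2 * (3 * c) * x / δ :=
              add_le_add e1 h4
          _ = _ := by ring
      calc (F.cnt δ : ℝ) ≤ _ := h3
        _ ≤ c / δ * (9 * c * x / δ) := by gcongr
        _ = _ := by field_simp; norm_num

lemma cnt_bound' (hk : 2 ≤ k) (hn : 1 ≤ n) {δ : ℝ} (hδ : 0 < δ) (hδ1 : δ ≤ 1) :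
    (F.cnt δ : ℝ) ≤ (3 * cc k) ^ 2 * (n : ℝ) ^ (k - 1) / δ ^ 2 := by
  have hn1 : (1 : ℝ) ≤ n := by exact_mod_cast hn
  have hsn : 1 ≤ Real.sqrt n := by rw [Real.one_le_sqrt]; exact hn1
  have hc := one_le_cc hk
  have hpos : 0 < 3 * cc k / Real.sqrt n := by positivity
  obtain ⟨m, hm⟩ := pow_unbounded_of_one_lt (δ / (3 * cc k / Real.sqrt n)) (one_lt_two)
  refine F.cnt_bound hk hn m δ hδ hδ1 ?_
  rw [div_lt_iff₀ hpos] at hm
  exact hm.le

/-- dyadic summation -/
lemma sum_le_dyadic {ι : Type*} (s : Finset ι) (p : ι → ℝ) (hp0 : ∀ i ∈ s, 0 ≤ p i)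
    (hp1 : ∀ i ∈ s, p i ≤ 1) (J : ℕ) :
    ∑ i ∈ s, p i ≤ (1 / 2) ^ J * s.card +
      ∑ j ∈ Finset.range J, (1 / 2) ^ j * ((s.filter fun i => (1 / 2 : ℝ) ^ (j + 1) ≤ p i).card : ℝ) := by
  classical
  have h1 : ∀ i ∈ s, p i ≤ (1 / 2) ^ J +
      ∑ j ∈ Finset.range J, (1 / 2) ^ j * (if (1 / 2 : ℝ) ^ (j + 1) ≤ p i then (1 : ℝ) else 0) := by
    intro i hi
    have hp0 := hp0 i hi
    have hp1 := hp1 i hi
    induction J with
    | zero => simpa using hp1
    | succ J ih =>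
      rw [Finset.sum_range_succ]
      by_cases h : (1 / 2 : ℝ) ^ (J + 1) ≤ p i
      · rw [if_pos h]
        have : (0 : ℝ) < (1 / 2) ^ (J + 1) := by positivity
        linarith
      · rw [if_neg h]
        have hnn : 0 ≤ ∑ j ∈ Finset.range J,
            (1 / 2 : ℝ) ^ j * (if (1 / 2 : ℝ) ^ (j + 1) ≤ p i then (1 : ℝ) else 0) :=
          Finset.sum_nonneg fun j _ => by split_ifs <;> positivity
        have := (not_le.mp h).le
        linarith
  refine (Finset.sum_le_sum h1).trans ?_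
  rw [Finset.sum_add_distrib, Finset.sum_comm]
  apply le_of_eq
  congr 1
  · rw [Finset.sum_const, nsmul_eq_mul]; ring
  · refine Finset.sum_congr rfl fun j _ => ?_
    rw [← Finset.mul_sum, ← Finset.sum_filter, Finset.sum_const, nsmul_eq_mul, mul_one]

/-- the final constant -/
noncomputable def CC (k : ℕ) : ℝ := 2 * k + 3 + 4 * (3 * cc k) ^ 2

/-- Total expected number of visited vertices. -/
theorem sum_p_le (hk : 2 ≤ k) (hn : 1 ≤ n) :
    ∑ v, F.p v ≤ CC k * (n : ℝ) ^ ((k : ℝ) - 1 / 2) := by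
  classical
  have hn1 : (1 : ℝ) ≤ n := by exact_mod_cast hn
  have hn0 : (0 : ℝ) < n := by linarith
  have hsn : 1 ≤ Real.sqrt n := by rw [Real.one_le_sqrt]; exact hn1
  have hsq : Real.sqrt n ^ 2 = n := Real.sq_sqrt hn0.le
  have hc := one_le_cc hk
  set c := cc k with hcdef
  set x : ℝ := (n : ℝ) ^ (k - 1) with hx
  have hx1 : 1 ≤ x := one_le_pow₀ hn1
  have hnk : (n : ℝ) ^ k = n * x := by
    rw [hx, ← pow_succ']
    congr 1; omega
  -- the power
  have hpow : (n : ℝ) ^ ((k : ℝ) - 1 / 2) = x * Real.sqrt n := by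
    rw [hx, Real.sqrt_eq_rpow, ← Real.rpow_natCast, ← Real.rpow_add hn0]
    congr 1
    push_cast [Nat.cast_sub (by omega : 1 ≤ k)]
    ring
  -- choose J
  obtain ⟨J, hJ1, hJ2⟩ : ∃ J : ℕ, (2 : ℝ) ^ J ≤ Real.sqrt n ∧ Real.sqrt n < 2 ^ (J + 1) :=
    exists_nat_pow_near hsn one_lt_two
  set B := Finset.univ.filter fun v => S.Bal v ∧ v ≠ v0 with hB
  have hBsum : ∑ v ∈ B, F.p v ≤ (2 + 4 * (3 * c) ^ 2) * (x * Real.sqrt n) := by
    have h1 := sum_le_dyadic B F.p (fun v _ => F.nonneg v) (fun v _ => F.p_le_one v) J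
    have h2 : (1 / 2 : ℝ) ^ J * B.card ≤ 2 * (x * Real.sqrt n) := by
      have e1 : (B.card : ℝ) ≤ n * x := by
        have := F.cnt_le_pow hn 0
        rw [hnk] at this
        refine le_trans ?_ this
        have e2 : F.cnt 0 = B.card := by
          unfold cnt
          rw [hB]
          congr 1
          ext v
          simp [F.nonneg v]
        rw [e2]
      have e3 : (1 / 2 : ℝ) ^ J * Real.sqrt n ≤ 2 := by
        rw [one_div, inv_pow, inv_mul_le_iff₀ (by positivity)]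
        rw [pow_succ] at hJ2
        linarith
      calc (1 / 2 : ℝ) ^ J * B.card ≤ (1 / 2 : ℝ) ^ J * (n * x) := by gcongr
        _ = ((1 / 2 : ℝ) ^ J * Real.sqrt n) * (x * Real.sqrt n) := by
            have e4 : (n : ℝ) * x = Real.sqrt n * (x * Real.sqrt n) := by
              calc (n : ℝ) * x = Real.sqrt n ^ 2 * x := by rw [hsq]
                _ = _ := by ring
            rw [e4]; ring
        _ ≤ 2 * (x * Real.sqrt n) := by gcongr
    have h3 : ∑ j ∈ Finset.range J, (1 / 2 : ℝ) ^ j *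
        ((B.filter fun v => (1 / 2 : ℝ) ^ (j + 1) ≤ F.p v).card : ℝ) ≤
        4 * (3 * c) ^ 2 * (x * Real.sqrt n) := by
      have e1 : ∀ j ∈ Finset.range J, (1 / 2 : ℝ) ^ j *
          ((B.filter fun v => (1 / 2 : ℝ) ^ (j + 1) ≤ F.p v).card : ℝ) ≤
          4 * (3 * c) ^ 2 * x * 2 ^ j := by
        intro j _
        have e2 : (B.filter fun v => (1 / 2 : ℝ) ^ (j + 1) ≤ F.p v).card =
            F.cnt ((1 / 2) ^ (j + 1)) := by
          unfold cnt
          congr 1
          rw [hB, Finset.filter_filter]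
          ext v
          simp [and_assoc]
        rw [e2]
        have e3 := F.cnt_bound' hk hn (δ := (1 / 2) ^ (j + 1)) (by positivity)
          (pow_le_one₀ (by norm_num) (by norm_num))
        calc (1 / 2 : ℝ) ^ j * (F.cnt ((1 / 2) ^ (j + 1)) : ℝ) ≤
            (1 / 2 : ℝ) ^ j * ((3 * c) ^ 2 * x / ((1 / 2) ^ (j + 1)) ^ 2) := by gcongr
          _ = _ := by
            have hy : (1 / 2 : ℝ) ^ j = (2 ^ j)⁻¹ := by rw [one_div, inv_pow]
            have hy2 : (1 / 2 : ℝ) ^ (j + 1) = (2 ^ j)⁻¹ / 2 := by rw [pow_succ, hy]; ring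
            rw [hy2, hy]
            field_simp
            norm_num
      refine (Finset.sum_le_sum e1).trans ?_
      rw [← Finset.mul_sum]
      have e4 : ∑ j ∈ Finset.range J, (2 : ℝ) ^ j ≤ 2 ^ J := by
        rw [geom_sum_eq (by norm_num)]
        norm_num
      calc 4 * (3 * c) ^ 2 * x * ∑ j ∈ Finset.range J, (2 : ℝ) ^ j ≤
          4 * (3 * c) ^ 2 * x * Real.sqrt n := by
            gcongr
            exact e4.trans hJ1
        _ = _ := by ring
    linarith
  have hrest : ∑ v ∈ Finset.univ.filter (fun v => ¬ (S.Bal v ∧ v ≠ v0)), F.p v ≤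
      (2 * k + 1) * (x * Real.sqrt n) := by
    have h1 : ∑ v ∈ Finset.univ.filter (fun v => ¬ (S.Bal v ∧ v ≠ v0)), F.p v ≤
        ∑ v : V, ((if ¬ S.Bal v then (1 : ℝ) else 0) + (if v = v0 then 1 else 0)) := by
      rw [Finset.sum_filter]
      refine Finset.sum_le_sum fun v _ => ?_
      have hp1 := F.p_le_one v
      by_cases hb : S.Bal v
      · by_cases hv : v = v0
        · rw [if_pos (fun h => h.2 hv), if_neg (not_not.mpr hb), if_pos hv]
          linarith
        · rw [if_neg (not_not.mpr ⟨hb, hv⟩), if_neg (not_not.mpr hb), if_neg hv]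
          linarith
      · have h0 : (0 : ℝ) ≤ (if v = v0 then 1 else 0) := by split_ifs <;> norm_num
        rw [if_pos (fun h => hb h.1), if_pos hb]
        linarith
    have h2 : ∑ v : V, ((if ¬ S.Bal v then (1 : ℝ) else 0) + (if v = v0 then 1 else 0)) =
        (unb S : ℝ) + 1 := by
      rw [Finset.sum_add_distrib]
      congr 1
      · rw [← Finset.sum_filter, Finset.sum_const, nsmul_eq_mul, mul_one]
        unfold unb
        rfl
      · simp
    have h3 : (unb S : ℝ) ≤ 2 * k * x := by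
      have := S.unb_le (by omega) hn
      rw [hx]
      exact_mod_cast this
    have h4 : (unb S : ℝ) + 1 ≤ (2 * k + 1) * x := by nlinarith
    have h5 : (2 * (k : ℝ) + 1) * x ≤ (2 * k + 1) * (x * Real.sqrt n) := by
      have : x ≤ x * Real.sqrt n := by nlinarith
      gcongr
    linarith
  rw [hpow, ← Finset.sum_filter_add_sum_filter_not Finset.univ (fun v => S.Bal v ∧ v ≠ v0)]
  rw [← hB]
  calc _ ≤ _ := add_le_add hBsum hrest
    _ = _ := by unfold CC; rw [← hcdef]; ring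

end Flow

end Pool.Agent.Hhelper78.RandomEdge
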