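import Pool.Agent.Hhelper78.RandomEdge.Huber

/-!
# Abstract acyclic orientations of simple polytope graphs: the combinatorial core
-/

namespace Pool.Agent.Hhelper78.RandomEdge

/-- The combinatorial data of a simple `2k`-polytope with `n` facets and a generic objective. -/
structure Sys (V : Type) [Fintype V] [DecidableEq V] (n k : ℕ) where
  rank : V → ℕ
  rank_inj : Function.Injective rank
  I : V → Finset (Fin n)
  out : V → Finset (Fin n)
  out_sub : ∀ v, out v ⊆ I v
  card_I : ∀ v, (I v).card = 2 * k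
  nb : V → Fin n → V
  ix : V → Fin n → Fin n
  ix_mem : ∀ v, ∀ i ∈ I v, ix v i ∈ I (nb v i)
  erase_eq : ∀ v, ∀ i ∈ I v, (I v).erase i = (I (nb v i)).erase (ix v i)
  nb_nb : ∀ v, ∀ i ∈ I v, nb (nb v i) (ix v i) = v
  ix_ix : ∀ v, ∀ i ∈ I v, ix (nb v i) (ix v i) = i
  out_iff : ∀ v, ∀ i ∈ I v, (i ∈ out v ↔ ix v i ∉ out (nb v i))
  rank_lt : ∀ v, ∀ i ∈ out v, rank v < rank (nb v i)
  in_inj : ∀ v w, I v \ out v = I w \ out w → v = w
  out_inj : ∀ v w, out v = out w → v = w

namespace Sys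

variable {V : Type} [Fintype V] [DecidableEq V] {n k : ℕ} (S : Sys V n k)

/-- the facets dropped along in-edges -/
def inn (v : V) : Finset (Fin n) := S.I v \ S.out v

lemma mem_inn {v : V} {j : Fin n} : j ∈ S.inn v ↔ j ∈ S.I v ∧ j ∉ S.out v := Finset.mem_sdiff

/-- out-edges -/
def outE : Finset (V × Fin n) := Finset.univ.filter fun e => e.2 ∈ S.out e.1

/-- in-edges, given at their heads -/
def inE : Finset (V × Fin n) := Finset.univ.filter fun e => e.2 ∈ S.inn e.1

/-- the other end -/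
def mate (e : V × Fin n) : V × Fin n := (S.nb e.1 e.2, S.ix e.1 e.2)

lemma mem_outE {e : V × Fin n} : e ∈ S.outE ↔ e.2 ∈ S.out e.1 := by simp [outE]

lemma mem_inE {e : V × Fin n} : e ∈ S.inE ↔ e.2 ∈ S.inn e.1 := by simp [inE]

lemma mate_mem_inE {e : V × Fin n} (he : e ∈ S.outE) : S.mate e ∈ S.inE := by
  rw [mem_outE] at he
  have hI := S.out_sub _ he
  rw [mem_inE, mem_inn]
  exact ⟨S.ix_mem _ _ hI, (S.out_iff _ _ hI).mp he⟩

lemma mate_mem_outE {e : V × Fin n} (he : e ∈ S.inE) : S.mate e ∈ S.outE := by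
  rw [mem_inE, mem_inn] at he
  rw [mem_outE]
  by_contra hcon
  exact he.2 ((S.out_iff _ _ he.1).mpr hcon)

lemma mate_mate {e : V × Fin n} (he : e.2 ∈ S.I e.1) : S.mate (S.mate e) = e := by
  unfold mate
  simp only
  rw [S.nb_nb _ _ he, S.ix_ix _ _ he]

lemma mate_mate_out {e : V × Fin n} (he : e ∈ S.outE) : S.mate (S.mate e) = e :=
  S.mate_mate (S.out_sub _ (S.mem_outE.mp he))

lemma mate_mate_in {e : V × Fin n} (he : e ∈ S.inE) : S.mate (S.mate e) = e :=
  S.mate_mate (S.mem_inn.mp (S.mem_inE.mp he)).1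

/-- Sums over out-edges are sums over in-edges. -/
lemma sum_outE (f : V × Fin n → ℝ) : ∑ e ∈ S.outE, f e = ∑ e ∈ S.inE, f (S.mate e) := by
  refine Finset.sum_nbij' S.mate S.mate (fun e he => S.mate_mem_inE he)
    (fun e he => S.mate_mem_outE he) (fun e he => S.mate_mate_out he)
    (fun e he => S.mate_mate_in he) (fun e he => ?_)
  rw [S.mate_mate_out he]

lemma sum_outE_eq (f : V × Fin n → ℝ) :
    ∑ e ∈ S.outE, f e = ∑ v, ∑ i ∈ S.out v, f (v, i) := by
  rw [outE, Finset.sum_filter, ← Finset.univ_product_univ, Finset.sum_product]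
  refine Finset.sum_congr rfl fun v _ => ?_
  rw [← Finset.sum_filter]
  congr 1
  ext i; simp

lemma sum_inE_eq (f : V × Fin n → ℝ) :
    ∑ e ∈ S.inE, f e = ∑ v, ∑ i ∈ S.inn v, f (v, i) := by
  rw [inE, Finset.sum_filter, ← Finset.univ_product_univ, Finset.sum_product]
  refine Finset.sum_congr rfl fun v _ => ?_
  rw [← Finset.sum_filter]
  congr 1
  ext i; simp

lemma card_inn_add (v : V) : (S.inn v).card + (S.out v).card = 2 * k := by
  rw [← S.card_I v, inn, Finset.card_sdiff_add_card_eq_card (S.out_sub v)]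

lemma nb_inn {w : V} {j : Fin n} (hj : j ∈ S.inn w) : S.ix w j ∈ S.out (S.nb w j) := by
  have h := S.mate_mem_outE (e := (w, j)) (S.mem_inE.mpr hj)
  exact S.mem_outE.mp h

lemma rank_nb_lt {w : V} {j : Fin n} (hj : j ∈ S.inn w) : S.rank (S.nb w j) < S.rank w := by
  have h := S.rank_lt _ _ (S.nb_inn hj)
  rwa [S.nb_nb _ _ (S.mem_inn.mp hj).1] at h

/-- balanced vertices -/
def Bal (v : V) : Prop := (S.out v).card = k

instance (v : V) : Decidable (S.Bal v) := inferInstanceAs (Decidable ((S.out v).card = k))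

end Sys

/-- The visiting probabilities of the random walk started at `v0`. -/
structure Flow {V : Type} [Fintype V] [DecidableEq V] {n k : ℕ} (S : Sys V n k) (v0 : V) where
  p : V → ℝ
  nonneg : ∀ v, 0 ≤ p v
  rec_eq : ∀ w, p w = (if w = v0 then 1 else 0) +
    ∑ j ∈ S.inn w, p (S.nb w j) / ((S.out (S.nb w j)).card : ℝ)

namespace Flow

variable {V : Type} [Fintype V] [DecidableEq V] {n k : ℕ} {S : Sys V n k} {v0 : V}
  (F : Flow S v0)

/-- flow on each out-edge of `v` -/
noncomputable def g (v : V) : ℝ := F.p v / ((S.out v).card : ℝ)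

lemma g_nonneg (v : V) : 0 ≤ F.g v := div_nonneg (F.nonneg v) (Nat.cast_nonneg _)

lemma rec_g (w : V) : F.p w = (if w = v0 then 1 else 0) + ∑ j ∈ S.inn w, F.g (S.nb w j) :=
  F.rec_eq w

lemma card_mul_g (v : V) : ((S.out v).card : ℝ) * F.g v ≤ F.p v := by
  unfold g
  by_cases h : ((S.out v).card : ℝ) = 0
  · rw [h]; simpa using F.nonneg v
  · rw [mul_div_cancel₀ _ h]

/-- edges crossing level `s` -/
def alive (S : Sys V n k) (s : ℕ) : Finset (V × Fin n) :=
  S.outE.filter fun e => S.rank e.1 < s ∧ s ≤ S.rank (S.nb e.1 e.2)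

lemma mass_le (s : ℕ) : ∑ e ∈ alive S s, F.g e.1 ≤
    ∑ v ∈ Finset.univ.filter (fun v => S.rank v < s), (if v = v0 then (1 : ℝ) else 0) := by
  classical
  have h1 : ∑ e ∈ S.outE, (if S.rank e.1 < s then F.g e.1 else 0) =
      ∑ e ∈ alive S s, F.g e.1 + ∑ e ∈ S.outE, (if S.rank (S.nb e.1 e.2) < s then F.g e.1 else 0) := by
    rw [alive, Finset.sum_filter, ← Finset.sum_add_distrib]
    refine Finset.sum_congr rfl fun e he => ?_
    have hlt := S.rank_lt _ _ (S.mem_outE.mp he)
    by_cases h1 : S.rank e.1 < s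
    · by_cases h2 : S.rank (S.nb e.1 e.2) < s
      · rw [if_pos h1, if_neg (by omega), if_pos h2]; ring
      · rw [if_pos h1, if_pos (by omega), if_neg h2]; ring
    · rw [if_neg h1, if_neg (by omega), if_neg (by omega)]; ring
  have h2 : ∑ e ∈ S.outE, (if S.rank (S.nb e.1 e.2) < s then F.g e.1 else 0) =
      ∑ w, ∑ j ∈ S.inn w, (if S.rank w < s then F.g (S.nb w j) else 0) := by
    rw [S.sum_outE, ← S.sum_inE_eq fun e => if S.rank e.1 < s then F.g (S.nb e.1 e.2) else 0]
    refine Finset.sum_congr rfl fun e he => ?_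
    have h3 := S.mate_mate_in he
    have h4 : S.nb (S.mate e).1 (S.mate e).2 = e.1 := congrArg Prod.fst h3
    rw [h4]
    rfl
  have h3 : ∑ e ∈ S.outE, (if S.rank e.1 < s then F.g e.1 else 0) =
      ∑ v, ∑ i ∈ S.out v, (if S.rank v < s then F.g v else 0) := S.sum_outE_eq _
  have h4 : ∑ v, ∑ i ∈ S.out v, (if S.rank v < s then F.g v else 0) ≤
      ∑ w, ∑ j ∈ S.inn w, (if S.rank w < s then F.g (S.nb w j) else 0) +
      ∑ v ∈ Finset.univ.filter (fun v => S.rank v < s), (if v = v0 then (1 : ℝ) else 0) := by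
    rw [Finset.sum_filter, ← Finset.sum_add_distrib]
    refine Finset.sum_le_sum fun v _ => ?_
    by_cases hv : S.rank v < s
    · simp only [if_pos hv]
      rw [Finset.sum_const, nsmul_eq_mul]
      have := F.card_mul_g v
      have h5 := F.rec_g v
      linarith
    · simp only [if_neg hv]
      simp
  linarith

lemma mass_le_one (s : ℕ) : ∑ e ∈ alive S s, F.g e.1 ≤ 1 := by
  refine (F.mass_le s).trans ?_
  calc ∑ v ∈ Finset.univ.filter (fun v => S.rank v < s), (if v = v0 then (1 : ℝ) else 0)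
      ≤ ∑ v : V, (if v = v0 then (1 : ℝ) else 0) := by
        apply Finset.sum_le_sum_of_subset_of_nonneg (Finset.filter_subset _ _)
        intros; split_ifs <;> norm_num
    _ = 1 := by simp

lemma mate_alive {w : V} {j : Fin n} (hj : j ∈ S.inn w) {s : ℕ} (hs : S.rank (S.nb w j) < s)
    (hs' : s ≤ S.rank w) : S.mate (w, j) ∈ alive S s := by
  unfold alive
  rw [Finset.mem_filter]
  refine ⟨S.mate_mem_outE (S.mem_inE.mpr hj), hs, ?_⟩
  have h3 := S.mate_mate_in (e := (w, j)) (S.mem_inE.mpr hj)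
  have h4 : S.nb (S.mate (w, j)).1 (S.mate (w, j)).2 = w := congrArg Prod.fst h3
  rw [h4]
  exact hs'

lemma inflow_le (w : V) : ∑ j ∈ S.inn w, F.g (S.nb w j) ≤ ∑ e ∈ alive S (S.rank w), F.g e.1 := by
  classical
  have hinj : Set.InjOn (fun j => S.mate (w, j)) (S.inn w) := by
    intro j hj j' hj' heq
    have h1 := S.mate_mate_in (e := (w, j)) (S.mem_inE.mpr hj)
    have h2 := S.mate_mate_in (e := (w, j')) (S.mem_inE.mpr hj')
    simp only at heq
    rw [heq, h2] at h1
    exact (congrArg Prod.snd h1).symm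
  have h1 : ∑ j ∈ S.inn w, F.g (S.nb w j) = ∑ e ∈ (S.inn w).image (fun j => S.mate (w, j)), F.g e.1 := by
    rw [Finset.sum_image hinj]
    rfl
  rw [h1]
  refine Finset.sum_le_sum_of_subset_of_nonneg ?_ fun e _ _ => F.g_nonneg _
  intro e he
  obtain ⟨j, hj, rfl⟩ := Finset.mem_image.mp he
  exact mate_alive hj (S.rank_nb_lt hj) le_rfl

lemma p_le_one (w : V) : F.p w ≤ 1 := by
  rw [F.rec_g w]
  have h1 := (F.inflow_le w).trans (F.mass_le (S.rank w))
  have h2 : ∑ v ∈ Finset.univ.filter (fun v => S.rank v < S.rank w),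
      (if v = v0 then (1 : ℝ) else 0) + (if w = v0 then 1 else 0) ≤ 1 := by
    by_cases h : w = v0
    · rw [if_pos h, Finset.sum_eq_zero]
      · norm_num
      · intro v hv
        rw [Finset.mem_filter] at hv
        rw [if_neg]
        rintro rfl
        rw [h] at hv
        exact lt_irrefl _ hv.2
    · rw [if_neg h, add_zero]
      calc _ ≤ ∑ v : V, (if v = v0 then (1 : ℝ) else 0) := by
            apply Finset.sum_le_sum_of_subset_of_nonneg (Finset.filter_subset _ _)
            intros; split_ifs <;> norm_num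
        _ = 1 := by simp
  linarith

/-- largest flow on an alive edge contained in all facets of `G` -/
noncomputable def M (G : Finset (Fin n)) (s : ℕ) : ℝ :=
  ((alive S s).filter fun e => G ⊆ (S.I e.1).erase e.2).fold max 0 fun e => F.g e.1

lemma M_nonneg (G : Finset (Fin n)) (s : ℕ) : 0 ≤ F.M G s :=
  (Finset.le_fold_max _).mpr (Or.inl le_rfl)

lemma le_M {G : Finset (Fin n)} {s : ℕ} {e : V × Fin n} (he : e ∈ alive S s)
    (hG : G ⊆ (S.I e.1).erase e.2) : F.g e.1 ≤ F.M G s :=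
  (Finset.le_fold_max _).mpr (Or.inr ⟨e, Finset.mem_filter.mpr ⟨he, hG⟩, le_rfl⟩)

lemma exists_of_le_M {G : Finset (Fin n)} {s : ℕ} {c : ℝ} (hc : 0 < c) (h : c ≤ F.M G s) :
    ∃ e ∈ alive S s, G ⊆ (S.I e.1).erase e.2 ∧ c ≤ F.g e.1 := by
  rcases (Finset.le_fold_max _).mp h with h | ⟨e, he, hce⟩
  · linarith
  · obtain ⟨h1, h2⟩ := Finset.mem_filter.mp he
    exact ⟨e, h1, h2, hce⟩

lemma M_zero (G : Finset (Fin n)) : F.M G 0 = 0 := by
  have : alive S 0 = ∅ := by
    unfold alive
    apply Finset.filter_false_of_mem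
    intro e _ h
    exact absurd h.1 (Nat.not_lt_zero _)
  unfold M
  rw [this]
  simp

/-- upward jumps of `M` -/
lemma M_step {G : Finset (Fin n)} {s : ℕ} (h : F.M G s < F.M G (s + 1)) :
    ∃ u, S.rank u = s ∧ G ⊆ S.I u ∧ F.M G (s + 1) = F.g u ∧ (S.out u).Nonempty ∧
      ∀ j ∈ S.inn u, j ∉ G → F.g (S.nb u j) ≤ F.M G s := by
  have hpos : 0 < F.M G (s + 1) := lt_of_le_of_lt (F.M_nonneg G s) h
  obtain ⟨e, he, hG, hce⟩ := F.exists_of_le_M hpos le_rfl
  have hle := F.le_M he hG
  have heq : F.M G (s + 1) = F.g e.1 := le_antisymm hce hle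
  have he' := Finset.mem_filter.mp he
  have hrank : S.rank e.1 = s := by
    by_contra hne
    have hlt : S.rank e.1 < s := by omega
    have : e ∈ alive S s := Finset.mem_filter.mpr ⟨he'.1, hlt, by omega⟩
    have := F.le_M this hG
    linarith
  refine ⟨e.1, hrank, hG.trans (Finset.erase_subset _ _), heq, ⟨e.2, S.mem_outE.mp he'.1⟩, ?_⟩
  intro j hj hjG
  have hal : S.mate (e.1, j) ∈ alive S s :=
    mate_alive hj (by rw [← hrank]; exact S.rank_nb_lt hj) (by rw [hrank])
  refine F.le_M hal ?_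
  have := S.erase_eq e.1 j (S.mem_inn.mp hj).1
  show G ⊆ (S.I (S.nb e.1 j)).erase (S.ix e.1 j)
  rw [← this]
  intro i hi
  rw [Finset.mem_erase]
  refine ⟨?_, Finset.erase_subset _ _ (hG hi)⟩
  rintro rfl
  exact hjG hi

/-- hysteresis -/
def act (a : ℝ) (G : Finset (Fin n)) : ℕ → Prop
  | 0 => False
  | s + 1 => a ≤ F.M G (s + 1) ∨ (act a G s ∧ a / 2 ≤ F.M G (s + 1))

lemma act_half {a : ℝ} (ha : 0 < a) {G : Finset (Fin n)} {s : ℕ} (h : F.act a G s) :
    a / 2 ≤ F.M G s := by
  cases s with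
  | zero => exact absurd h id
  | succ s =>
    rcases h with h | h
    · linarith
    · exact h.2

lemma act_of_le {a : ℝ} (ha : 0 < a) {G : Finset (Fin n)} {s : ℕ} (h : a ≤ F.M G s) :
    F.act a G s := by
  cases s with
  | zero => rw [F.M_zero] at h; linarith
  | succ s => exact Or.inl h

lemma act_persist {a : ℝ} {G : Finset (Fin n)} {s t : ℕ} (hst : s ≤ t) (h : F.act a G s)
    (hM : ∀ r, s < r → r ≤ t → a / 2 ≤ F.M G r) : F.act a G t := by
  induction t, hst using Nat.le_induction with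
  | base => exact h
  | succ t hst ih =>
    exact Or.inr ⟨ih fun r h1 h2 => hM r h1 (by omega), hM (t + 1) (by omega) le_rfl⟩

lemma exists_last {a : ℝ} {G : Finset (Fin n)} {t : ℕ} (h : F.act a G t) :
    ∃ s < t, ¬ F.act a G s ∧ ∀ r, s < r → r ≤ t → F.act a G r := by
  induction t with
  | zero => exact absurd h id
  | succ t ih =>
    by_cases ht : F.act a G t
    · obtain ⟨s, hs, h1, h2⟩ := ih ht
      refine ⟨s, by omega, h1, fun r hr1 hr2 => ?_⟩
      rcases Nat.lt_or_ge r (t + 1) with hr | hr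
      · exact h2 r hr1 (by omega)
      · have : r = t + 1 := by omega
        rw [this]; exact h
    · refine ⟨t, by omega, ht, fun r hr1 hr2 => ?_⟩
      have : r = t + 1 := by omega
      rw [this]; exact h

open Classical in
/-- At any time few `(k-1)`-sets are active. -/
lemma card_act_le {a : ℝ} (ha : 0 < a) (s : ℕ) :
    (((Finset.powersetCard (k - 1) (Finset.univ : Finset (Fin n))).filter
      fun G => F.act a G s).card : ℝ) ≤ 2 / a * ((2 * k - 1).choose (k - 1)) := by
  set HE := (alive S s).filter fun e => a / 2 ≤ F.g e.1 with hHE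
  have h1 : (HE.card : ℝ) * (a / 2) ≤ 1 := by
    calc (HE.card : ℝ) * (a / 2) = ∑ _e ∈ HE, a / 2 := by rw [Finset.sum_const, nsmul_eq_mul]
      _ ≤ ∑ e ∈ HE, F.g e.1 := Finset.sum_le_sum fun e he => (Finset.mem_filter.mp he).2
      _ ≤ ∑ e ∈ alive S s, F.g e.1 :=
        Finset.sum_le_sum_of_subset_of_nonneg (Finset.filter_subset _ _) fun e _ _ => F.g_nonneg _
      _ ≤ 1 := F.mass_le_one s
  have h2 : ((Finset.powersetCard (k - 1) (Finset.univ : Finset (Fin n))).filter
      fun G => F.act a G s) ⊆ HE.biUnion fun e => Finset.powersetCard (k - 1) ((S.I e.1).erase e.2) := by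
    intro G hG
    rw [Finset.mem_filter, Finset.mem_powersetCard] at hG
    obtain ⟨e, he, hGe, hce⟩ := F.exists_of_le_M (half_pos ha) (F.act_half ha hG.2)
    exact Finset.mem_biUnion.mpr ⟨e, Finset.mem_filter.mpr ⟨he, hce⟩,
      Finset.mem_powersetCard.mpr ⟨hGe, hG.1.2⟩⟩
  have h3 : (HE.biUnion fun e => Finset.powersetCard (k - 1) ((S.I e.1).erase e.2)).card ≤
      HE.card * ((2 * k - 1).choose (k - 1)) := by
    refine Finset.card_biUnion_le_card_mul _ _ _ fun e he => ?_
    have : e.2 ∈ S.I e.1 := S.out_sub _ (S.mem_outE.mp (Finset.mem_filter.mp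
      (Finset.mem_filter.mp he).1).1)
    rw [Finset.card_powersetCard, Finset.card_erase_of_mem this, S.card_I]
  have h4 : (((Finset.powersetCard (k - 1) (Finset.univ : Finset (Fin n))).filter
      fun G => F.act a G s).card : ℝ) ≤ HE.card * ((2 * k - 1).choose (k - 1)) := by
    exact_mod_cast (Finset.card_le_card h2).trans h3
  refine h4.trans ?_
  have h5 : (HE.card : ℝ) ≤ 2 / a := by
    rw [le_div_iff₀ ha]; linarith
  gcongr

end Flow

end Pool.Agent.Hhelper78.RandomEdge
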