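import Pool.Agent.Hhelper78.RandomEdge.Core

/-!
# Counting activations
-/

namespace Pool.Agent.Hhelper78.RandomEdge

namespace Flow

variable {V : Type} [Fintype V] [DecidableEq V] {n k : ℕ} {S : Sys V n k} {v0 : V}
  (F : Flow S v0)

open Classical in
/-- activation events before time `T` -/
noncomputable def Act (a : ℝ) (T : ℕ) : Finset (Finset (Fin n) × ℕ) :=
  ((Finset.powersetCard (k - 1) (Finset.univ : Finset (Fin n))) ×ˢ Finset.range T).filter
    fun x => ¬ F.act a x.1 x.2 ∧ F.act a x.1 (x.2 + 1)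

/-- If `v` is balanced with large visiting probability, all `(k-1)`-subsets of `inn v` are active
just after `v`. -/
lemma act_after {a : ℝ} (ha : 0 < a) (hk : 1 ≤ k) {v : V} (hb : S.Bal v)
    (hp : (k : ℝ) * a ≤ F.p v) {P : Fin n} :
    F.act a ((S.inn v).erase P) (S.rank v + 1) := by
  apply F.act_of_le ha
  have hk0 : (0 : ℝ) < k := by exact_mod_cast hk
  have hg : a ≤ F.g v := by
    unfold g
    rw [show ((S.out v).card : ℝ) = k by exact_mod_cast hb, le_div_iff₀ hk0]
    linarith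
  have hne : (S.out v).Nonempty := by
    rw [← Finset.card_pos, show (S.out v).card = k from hb]
    omega
  obtain ⟨i, hi⟩ := hne
  refine hg.trans (F.le_M (e := (v, i)) ?_ ?_)
  · exact Finset.mem_filter.mpr ⟨S.mem_outE.mpr hi, Nat.lt_succ_self _, S.rank_lt v i hi⟩
  · intro j hj
    rw [Finset.mem_erase] at hj
    have hj' := S.mem_inn.mp hj.2
    rw [Finset.mem_erase]
    refine ⟨?_, hj'.1⟩
    rintro rfl
    exact hj'.2 hi

/-- The number of balanced vertices of large visiting probability. -/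
noncomputable def cnt (F : Flow S v0) (δ : ℝ) : ℕ :=
  by classical exact (Finset.univ.filter fun v => S.Bal v ∧ v ≠ v0 ∧ δ ≤ F.p v).card

lemma cnt_le {a : ℝ} (ha : 0 < a) (hk : 2 ≤ k) {T : ℕ} (hT : ∀ v, S.rank v < T) :
    (F.cnt (k * a) : ℝ) ≤ (F.Act a T).card * (2 / a * ((2 * k - 1).choose (k - 1))) := by
  classical
  set Y := Finset.univ.filter fun v => S.Bal v ∧ v ≠ v0 ∧ (k : ℝ) * a ≤ F.p v with hY
  set Z := ((F.Act a T) ×ˢ (Finset.powersetCard (k - 1) (Finset.univ : Finset (Fin n)))).filter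
    fun x => F.act a x.2 (x.1.2 + 1) with hZ
  -- the card of Z
  have hZc : (Z.card : ℝ) ≤ (F.Act a T).card * (2 / a * ((2 * k - 1).choose (k - 1))) := by
    have h1 : Z.card = ∑ x ∈ F.Act a T, ((Finset.powersetCard (k - 1)
        (Finset.univ : Finset (Fin n))).filter fun G => F.act a G (x.2 + 1)).card := by
      rw [hZ, Finset.card_filter, Finset.sum_product]
      refine Finset.sum_congr rfl fun x _ => ?_
      rw [Finset.card_filter]
    rw [h1]
    push_cast
    calc ∑ x ∈ F.Act a T, (((Finset.powersetCard (k - 1)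
        (Finset.univ : Finset (Fin n))).filter fun G => F.act a G (x.2 + 1)).card : ℝ)
        ≤ ∑ x ∈ F.Act a T, (2 / a * ((2 * k - 1).choose (k - 1)) : ℝ) := by
          refine Finset.sum_le_sum fun x _ => ?_
          convert F.card_act_le ha (x.2 + 1)
      _ = _ := by rw [Finset.sum_const, nsmul_eq_mul]
  -- choose the image
  have hex : ∀ v ∈ Y, ∃ x ∈ Z, x.1.1 ∪ x.2 = S.inn v := by
    intro v hv
    obtain ⟨-, hb, -, hp⟩ := Finset.mem_filter.mp hv
    have hcard : (S.inn v).card = k := by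
      have := S.card_inn_add v
      have hb' : (S.out v).card = k := hb
      omega
    have hact : ∀ P, F.act a ((S.inn v).erase P) (S.rank v + 1) := fun P =>
      F.act_after ha (by omega) hb hp
    choose τ hτ1 hτ2 hτ3 using fun P => F.exists_last (hact P)
    obtain ⟨P, hP, hmax⟩ := Finset.exists_max_image (S.inn v) τ
      (by rw [← Finset.card_pos]; omega)
    obtain ⟨Q, hQ⟩ : ((S.inn v).erase P).Nonempty := by
      rw [← Finset.card_pos, Finset.card_erase_of_mem hP]; omega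
    have hQ' := Finset.mem_erase.mp hQ
    have hcP : ((S.inn v).erase P).card = k - 1 := by rw [Finset.card_erase_of_mem hP, hcard]
    have hcQ : ((S.inn v).erase Q).card = k - 1 := by rw [Finset.card_erase_of_mem hQ'.2, hcard]
    refine ⟨(((S.inn v).erase P, τ P), (S.inn v).erase Q), ?_, ?_⟩
    · rw [hZ, Finset.mem_filter, Finset.mem_product]
      refine ⟨⟨?_, ?_⟩, ?_⟩
      · unfold Act
        rw [Finset.mem_filter, Finset.mem_product]
        refine ⟨⟨Finset.mem_powersetCard.mpr ⟨Finset.subset_univ _, hcP⟩, ?_⟩, hτ2 P, ?_⟩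
        · rw [Finset.mem_range]
          have := hτ1 P
          have := hT v
          show τ P < T
          omega
        · exact hτ3 P _ (Nat.lt_succ_self _) (hτ1 P)
      · exact Finset.mem_powersetCard.mpr ⟨Finset.subset_univ _, hcQ⟩
      · exact hτ3 Q _ (Nat.lt_succ_of_le (hmax Q hQ'.2)) (hτ1 P)
    · ext j
      simp only [Finset.mem_union, Finset.mem_erase]
      constructor
      · rintro (h | h) <;> exact h.2
      · intro h
        by_cases hj : j = P
        · right; exact ⟨by rw [hj]; exact fun h => hQ'.1 h.symm, h⟩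
        · left; exact ⟨hj, h⟩
  choose! f hf1 hf2 using hex
  have hcard : Y.card ≤ Z.card := by
    refine Finset.card_le_card_of_injOn f (fun v hv => hf1 v hv) ?_
    intro v hv w hw hvw
    have h1 := hf2 v hv
    have h2 := hf2 w hw
    rw [hvw, h2] at h1
    exact (S.in_inj _ _ h1).symm
  have : (F.cnt (k * a) : ℝ) = Y.card := by
    unfold cnt
    rw [hY]
  rw [this]
  exact le_trans (by exact_mod_cast hcard) hZc

/-! ### Windows -/

/-- the last time before `s` at which `M` is below `a / 2` -/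
noncomputable def start (a : ℝ) (G : Finset (Fin n)) (s : ℕ) : ℕ := by
  classical exact Nat.findGreatest (fun t => F.M G t < a / 2) s

lemma start_le (a : ℝ) (G : Finset (Fin n)) (s : ℕ) : F.start a G s ≤ s := by
  classical
  exact Nat.findGreatest_le s

lemma M_start {a : ℝ} (ha : 0 < a) (G : Finset (Fin n)) (s : ℕ) :
    F.M G (F.start a G s) < a / 2 := by
  classical
  exact Nat.findGreatest_spec (P := fun t => F.M G t < a / 2) (Nat.zero_le s)
    (by rw [F.M_zero]; positivity)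

lemma half_le_M {a : ℝ} {G : Finset (Fin n)} {s t : ℕ} (h1 : F.start a G s < t) (h2 : t ≤ s) :
    a / 2 ≤ F.M G t := by
  classical
  exact not_lt.mp (Nat.findGreatest_is_greatest (P := fun t => F.M G t < a / 2) h1 h2)

lemma M_lt_of_window {a : ℝ} (ha : 0 < a) {G : Finset (Fin n)} {s : ℕ} (hs : ¬ F.act a G s)
    {t : ℕ} (h1 : F.start a G s ≤ t) (h2 : t ≤ s) : F.M G t < a := by
  rcases Nat.eq_or_lt_of_le h1 with h | h
  · rw [← h]
    exact (F.M_start ha G s).trans (by linarith)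
  · by_contra hcon
    exact hs (F.act_persist h2 (F.act_of_le ha (not_lt.mp hcon)) fun r hr1 hr2 =>
      F.half_le_M (by omega) hr2)

open Classical in
/-- vertices at which `M G` jumps up inside the window of the activation `(G, s)` -/
noncomputable def win (a : ℝ) (x : Finset (Fin n) × ℕ) : Finset V :=
  Finset.univ.filter fun v => F.start a x.1 x.2 ≤ S.rank v ∧ S.rank v ≤ x.2 ∧
    F.M x.1 (S.rank v) < F.M x.1 (S.rank v + 1)

lemma mem_win {a : ℝ} {x : Finset (Fin n) × ℕ} {v : V} : v ∈ F.win a x ↔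
    F.start a x.1 x.2 ≤ S.rank v ∧ S.rank v ≤ x.2 ∧
    F.M x.1 (S.rank v) < F.M x.1 (S.rank v + 1) := by
  classical
  simp [win]

lemma mem_Act {a : ℝ} {T : ℕ} {x : Finset (Fin n) × ℕ} : x ∈ F.Act a T ↔
    (x.1.card = k - 1 ∧ x.2 < T) ∧ ¬ F.act a x.1 x.2 ∧ F.act a x.1 (x.2 + 1) := by
  classical
  unfold Act
  rw [Finset.mem_filter, Finset.mem_product, Finset.mem_powersetCard, Finset.mem_range]
  simp

lemma M_succ_ge {a : ℝ} {T : ℕ} {x : Finset (Fin n) × ℕ} (hx : x ∈ F.Act a T) :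
    a ≤ F.M x.1 (x.2 + 1) := by
  rw [mem_Act] at hx
  rcases hx.2.2 with h | h
  · exact h
  · exact absurd h.1 hx.2.1

lemma win_half {a : ℝ} (ha : 0 < a) {T : ℕ} {x : Finset (Fin n) × ℕ} (hx : x ∈ F.Act a T) {v : V}
    (hv : v ∈ F.win a x) : a / 2 ≤ F.M x.1 (S.rank v + 1) := by
  rw [mem_win] at hv
  rcases Nat.eq_or_lt_of_le hv.2.1 with h | h
  · have := F.M_succ_ge hx
    rw [h]; linarith
  · exact F.half_le_M (by omega) h

lemma win_facts {a : ℝ} (ha : 0 < a) {T : ℕ} {x : Finset (Fin n) × ℕ} (hx : x ∈ F.Act a T) {v : V}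
    (hv : v ∈ F.win a x) : x.1 ⊆ S.I v ∧ F.M x.1 (S.rank v + 1) = F.g v ∧ (S.out v).Nonempty ∧
      (∀ j ∈ S.inn v, j ∉ x.1 → F.g (S.nb v j) ≤ F.M x.1 (S.rank v)) ∧
      F.M x.1 (S.rank v) < a := by
  have hv' := F.mem_win.mp hv
  obtain ⟨u, hu, h1, h2, h3, h4⟩ := F.M_step hv'.2.2
  have : u = v := S.rank_inj hu
  subst this
  exact ⟨h1, h2, h3, h4, F.M_lt_of_window ha (F.mem_Act.mp hx).2.1 hv'.1 hv'.2.1⟩

lemma win_disjoint {a : ℝ} {T : ℕ} {G : Finset (Fin n)} {s₁ s₂ : ℕ}
    (h1 : (G, s₁) ∈ F.Act a T) (h2 : (G, s₂) ∈ F.Act a T) {v : V}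
    (hv1 : v ∈ F.win a (G, s₁)) (hv2 : v ∈ F.win a (G, s₂)) : s₁ = s₂ := by
  have key : ∀ s₁ s₂ : ℕ, (G, s₁) ∈ F.Act a T → (G, s₂) ∈ F.Act a T → v ∈ F.win a (G, s₁) →
      v ∈ F.win a (G, s₂) → ¬ s₁ < s₂ := by
    intro s₁ s₂ h1 h2 hv1 hv2 hlt
    have e1 := F.mem_win.mp hv1
    have e2 := F.mem_win.mp hv2
    simp only at e1 e2
    have hs : F.start a G s₂ ≤ s₁ := e2.1.trans e1.2.1
    have hact := (F.mem_Act.mp h1).2.2
    have : F.act a G s₂ := F.act_persist (s := s₁ + 1) hlt hact fun r hr1 hr2 =>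
      F.half_le_M (by omega) hr2
    exact (F.mem_Act.mp h2).2.1 this
  rcases lt_trichotomy s₁ s₂ with h | h | h
  · exact absurd h (key _ _ h1 h2 hv1 hv2)
  · exact h
  · exact absurd h (key _ _ h2 h1 hv2 hv1)

omit [Fintype V] [DecidableEq V] in
lemma telescope (m : ℕ → ℝ) (a b : ℕ) (hab : a ≤ b) : m b - m a ≤
    ∑ u ∈ (Finset.Ico a b).filter (fun u => m u < m (u + 1)), (m (u + 1) - m u) := by
  rw [Finset.sum_filter]
  induction b, hab using Nat.le_induction with
  | base => simp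
  | succ b hab ih =>
    rw [Finset.sum_Ico_succ_top hab]
    split_ifs with h
    · linarith
    · linarith

lemma win_sum {a : ℝ} (ha : 0 < a) {T : ℕ} {x : Finset (Fin n) × ℕ} (hx : x ∈ F.Act a T) :
    a / 2 ≤ ∑ v ∈ F.win a x, (F.M x.1 (S.rank v + 1) - F.M x.1 (S.rank v)) := by
  classical
  have h1 := telescope (fun t => F.M x.1 t) (F.start a x.1 x.2) (x.2 + 1)
    (by have := F.start_le a x.1 x.2; omega)
  have h2 := F.M_succ_ge hx
  have h3 := F.M_start ha x.1 x.2
  have h4 : (Finset.Ico (F.start a x.1 x.2) (x.2 + 1)).filter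
      (fun u => F.M x.1 u < F.M x.1 (u + 1)) = (F.win a x).image S.rank := by
    ext u
    rw [Finset.mem_filter, Finset.mem_Ico, Finset.mem_image]
    constructor
    · rintro ⟨⟨hu1, hu2⟩, hu3⟩
      obtain ⟨v, hv, -⟩ := F.M_step hu3
      subst hv
      exact ⟨v, F.mem_win.mpr ⟨hu1, by omega, hu3⟩, rfl⟩
    · rintro ⟨v, hv, rfl⟩
      have := F.mem_win.mp hv
      exact ⟨⟨this.1, by omega⟩, this.2.2⟩
  rw [h4, Finset.sum_image fun v _ w _ h => S.rank_inj h] at h1
  linarith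

lemma win_nonempty {a : ℝ} (ha : 0 < a) {T : ℕ} {x : Finset (Fin n) × ℕ} (hx : x ∈ F.Act a T) :
    (F.win a x).Nonempty := by
  by_contra h
  rw [Finset.not_nonempty_iff_eq_empty] at h
  have := F.win_sum ha hx
  rw [h, Finset.sum_empty] at this
  linarith

/-- Exchanging sums: every vertex lies in at most `choose (2k) (k-1)` windows. -/
lemma sum_win_le {a : ℝ} (ha : 0 < a) {T : ℕ} (A : Finset (Finset (Fin n) × ℕ))
    (hA : A ⊆ F.Act a T) (Y : Finset V) (hY : ∀ x ∈ A, F.win a x ⊆ Y) (h : V → ℝ)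
    (hh : ∀ v, 0 ≤ h v) :
    ∑ x ∈ A, ∑ v ∈ F.win a x, h v ≤ ((2 * k).choose (k - 1)) * ∑ v ∈ Y, h v := by
  classical
  have h1 : ∀ x ∈ A, ∑ v ∈ F.win a x, h v = ∑ v ∈ Y, (if v ∈ F.win a x then h v else 0) := by
    intro x hx
    rw [← Finset.sum_filter]
    congr 1
    ext v
    rw [Finset.mem_filter]
    exact ⟨fun hv => ⟨hY x hx hv, hv⟩, fun hv => hv.2⟩
  rw [Finset.sum_congr rfl h1, Finset.sum_comm, Finset.mul_sum]
  refine Finset.sum_le_sum fun v _ => ?_
  rw [← Finset.sum_filter, Finset.sum_const, nsmul_eq_mul]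
  refine mul_le_mul_of_nonneg_right ?_ (hh v)
  have hinj : Set.InjOn (fun x : Finset (Fin n) × ℕ => x.1) (A.filter fun x => v ∈ F.win a x) := by
    intro x hx y hy hxy
    have hx' := Finset.mem_filter.mp hx
    have hy' := Finset.mem_filter.mp hy
    obtain ⟨G, s⟩ := x
    obtain ⟨G', s'⟩ := y
    simp only at hxy
    subst hxy
    have := F.win_disjoint (hA hx'.1) (hA hy'.1) hx'.2 hy'.2
    rw [this]
  have hsub : (A.filter fun x => v ∈ F.win a x).card ≤ (Finset.powersetCard (k - 1) (S.I v)).card := by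
    refine Finset.card_le_card_of_injOn _ ?_ hinj
    intro x hx
    have hx' := Finset.mem_filter.mp hx
    have hAct := hA hx'.1
    exact Finset.mem_coe.mpr (Finset.mem_powersetCard.mpr
      ⟨(F.win_facts ha hAct hx'.2).1, (F.mem_Act.mp hAct).1.1⟩)
  rw [Finset.card_powersetCard, S.card_I] at hsub
  exact_mod_cast hsub

/-! ### The potential -/

/-- decrease of the potential at a vertex -/
noncomputable def drop (F : Flow S v0) (κ : ℝ) (v : V) : ℝ :=
  ∑ j ∈ S.inn v, huber κ (F.g (S.nb v j)) - ∑ _i ∈ S.out v, huber κ (F.g v)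

lemma sum_drop (κ : ℝ) : ∑ v, F.drop κ v = 0 := by
  unfold drop
  rw [Finset.sum_sub_distrib, sub_eq_zero]
  have h1 := S.sum_outE fun e => huber κ (F.g e.1)
  rw [S.sum_outE_eq] at h1
  rw [h1, ← S.sum_inE_eq fun e => huber κ (F.g (S.nb e.1 e.2))]
  rfl

lemma bal_inn_card {v : V} (hb : S.Bal v) : (S.inn v).card = k := by
  have := S.card_inn_add v
  have hb' : (S.out v).card = k := hb
  omega

/-- Bregman form of the drop at a balanced vertex -/
lemma drop_eq (κ : ℝ) (hk : 1 ≤ k) {v : V} (hb : S.Bal v) (hv : v ≠ v0) :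
    F.drop κ v = ∑ j ∈ S.inn v, (huber κ (F.g (S.nb v j)) - huber κ (F.g v) -
      2 * min (F.g v) κ * (F.g (S.nb v j) - F.g v)) := by
  have hk0 : (0 : ℝ) < k := by exact_mod_cast hk
  have hc : ((S.out v).card : ℝ) = k := by exact_mod_cast hb
  have h1 : ∑ j ∈ S.inn v, (F.g (S.nb v j) - F.g v) = 0 := by
    rw [Finset.sum_sub_distrib, Finset.sum_const, bal_inn_card hb, nsmul_eq_mul]
    have h2 := F.rec_g v
    rw [if_neg hv, zero_add] at h2
    rw [← h2]
    unfold g
    rw [hc, mul_div_cancel₀ _ hk0.ne', sub_self]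
  rw [Finset.sum_sub_distrib, Finset.sum_sub_distrib, ← Finset.mul_sum, h1, mul_zero, sub_zero]
  unfold drop
  congr 1
  rw [Finset.sum_const, Finset.sum_const, bal_inn_card hb, show (S.out v).card = k from hb]

lemma drop_nonneg {κ : ℝ} (hκ : 0 < κ) (hk : 1 ≤ k) {v : V} (hb : S.Bal v) (hv : v ≠ v0) :
    0 ≤ F.drop κ v := by
  rw [F.drop_eq κ hk hb hv]
  exact Finset.sum_nonneg fun j _ => huber_tangent hκ (F.g_nonneg _) (F.g_nonneg _)

lemma drop_gap {a : ℝ} (ha : 0 < a) (hk : 1 ≤ k) {v : V} (hb : S.Bal v) (hv : v ≠ v0) {M : ℝ}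
    (hM : M < a) {j : Fin n} (hj : j ∈ S.inn v) (hjM : F.g (S.nb v j) ≤ M) (hg : M < F.g v) :
    min ((F.g v - M) ^ 2) (a ^ 2) ≤ F.drop (2 * a) v := by
  rw [F.drop_eq _ hk hb hv]
  have h1 := huber_gap (κ := 2 * a) (by positivity) (F.g_nonneg (S.nb v j)) hjM hg
    (by linarith)
  rw [show 2 * a / 2 = a by ring] at h1
  refine h1.trans (Finset.single_le_sum (f := fun j => huber (2 * a) (F.g (S.nb v j)) -
    huber (2 * a) (F.g v) - 2 * min (F.g v) (2 * a) * (F.g (S.nb v j) - F.g v)) ?_ hj)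
  intro i _
  exact huber_tangent (by positivity) (F.g_nonneg _) (F.g_nonneg _)

lemma out_huber_le {κ : ℝ} (hκ : 0 < κ) (v : V) :
    ∑ _i ∈ S.out v, huber κ (F.g v) ≤ huber κ (F.p v) := by
  rw [Finset.sum_const, nsmul_eq_mul]
  by_cases h : ((S.out v).card : ℝ) = 0
  · rw [h, zero_mul]; exact huber_nonneg hκ
  · refine (huber_mul hκ (F.g_nonneg v) _).trans ?_
    unfold g
    rw [mul_div_cancel₀ _ h]

lemma neg_drop_le {κ : ℝ} (hκ : 0 < κ) {v : V} (hv : v ≠ v0) :
    -F.drop κ v ≤ 2 * k * κ ^ 2 := by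
  unfold drop
  have h1 := F.out_huber_le hκ v
  have h2 := F.rec_g v
  rw [if_neg hv, zero_add] at h2
  have h3 := huber_sum hκ (S.inn v) (fun j => F.g (S.nb v j)) fun j _ => F.g_nonneg _
  rw [← h2] at h3
  have h4 : ((S.inn v).card : ℝ) ≤ 2 * k := by
    have := S.card_inn_add v
    exact_mod_cast (by omega : (S.inn v).card ≤ 2 * k)
  have h5 : ((S.inn v).card : ℝ) * κ ^ 2 ≤ 2 * k * κ ^ 2 := by gcongr
  linarith

lemma neg_drop_start_le {κ : ℝ} (hκ : 0 < κ) : -F.drop κ v0 ≤ 2 * κ := by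
  unfold drop
  have h1 := F.out_huber_le hκ v0
  have h2 := huber_le_lin hκ (F.nonneg v0)
  have h3 := F.p_le_one v0
  have h4 : 0 ≤ ∑ j ∈ S.inn v0, huber κ (F.g (S.nb v0 j)) :=
    Finset.sum_nonneg fun j _ => huber_nonneg hκ
  have h5 : 2 * κ * F.p v0 ≤ 2 * κ * 1 := by gcongr
  linarith

/-- number of unbalanced vertices -/
noncomputable def unb (S : Sys V n k) : ℕ :=
  by classical exact (Finset.univ.filter fun v => ¬ S.Bal v).card

lemma sum_drop_bal_le {κ : ℝ} (hκ : 0 < κ) :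
    ∑ v ∈ Finset.univ.filter (fun v => S.Bal v ∧ v ≠ v0), F.drop κ v ≤
      (unb S : ℝ) * (2 * k * κ ^ 2) + 2 * κ := by
  classical
  have h1 := F.sum_drop κ
  rw [← Finset.sum_filter_add_sum_filter_not Finset.univ (fun v => S.Bal v ∧ v ≠ v0)] at h1
  have h2 : -∑ v ∈ Finset.univ.filter (fun v => ¬ (S.Bal v ∧ v ≠ v0)), F.drop κ v ≤
      (unb S : ℝ) * (2 * k * κ ^ 2) + 2 * κ := by
    rw [← Finset.sum_neg_distrib]
    have h3 : ∀ v ∈ Finset.univ.filter (fun v => ¬ (S.Bal v ∧ v ≠ v0)), -F.drop κ v ≤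
        (if ¬ S.Bal v then 2 * k * κ ^ 2 else 0) + (if v = v0 then 2 * κ else 0) := by
      intro v hv
      have hv' := (Finset.mem_filter.mp hv).2
      have hp : (0 : ℝ) ≤ 2 * k * κ ^ 2 := by positivity
      by_cases hvv : v = v0
      · subst hvv
        rw [if_pos rfl]
        have := F.neg_drop_start_le hκ
        split_ifs <;> linarith
      · have hb : ¬ S.Bal v := fun hb => hv' ⟨hb, hvv⟩
        rw [if_pos hb, if_neg hvv, add_zero]
        exact F.neg_drop_le hκ hvv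
    refine (Finset.sum_le_sum h3).trans ?_
    rw [Finset.sum_add_distrib]
    have h4 : ∑ v ∈ Finset.univ.filter (fun v => ¬ (S.Bal v ∧ v ≠ v0)),
        (if ¬ S.Bal v then 2 * (k : ℝ) * κ ^ 2 else 0) ≤ (unb S : ℝ) * (2 * k * κ ^ 2) := by
      calc _ ≤ ∑ v : V, (if ¬ S.Bal v then 2 * (k : ℝ) * κ ^ 2 else 0) := by
            apply Finset.sum_le_sum_of_subset_of_nonneg (Finset.filter_subset _ _)
            intros; split_ifs <;> positivity
        _ = _ := by
            rw [← Finset.sum_filter, Finset.sum_const, nsmul_eq_mul]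
            unfold unb
            rfl
    have h5 : ∑ v ∈ Finset.univ.filter (fun v => ¬ (S.Bal v ∧ v ≠ v0)),
        (if v = v0 then 2 * κ else 0) ≤ 2 * κ := by
      calc _ ≤ ∑ v : V, (if v = v0 then 2 * κ else 0) := by
            apply Finset.sum_le_sum_of_subset_of_nonneg (Finset.filter_subset _ _)
            intros; split_ifs <;> positivity
        _ = _ := by simp
    linarith
  linarith

/-- lower bound of the total drop in a window -/
lemma win_drop {a : ℝ} (ha : 0 < a) (hk : 2 ≤ k) {T : ℕ} {x : Finset (Fin n) × ℕ}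
    (hx : x ∈ F.Act a T) (hb : ∀ v ∈ F.win a x, S.Bal v ∧ v ≠ v0) :
    a ^ 2 / 4 * (1 / ((F.win a x).card : ℝ)) ≤ ∑ v ∈ F.win a x, F.drop (2 * a) v := by
  set W := F.win a x with hW
  have hne : W.Nonempty := F.win_nonempty ha hx
  have hcard : (1 : ℝ) ≤ W.card := by
    exact_mod_cast Finset.card_pos.mpr hne
  have hnn : ∀ v ∈ W, 0 ≤ F.drop (2 * a) v := fun v hv =>
    F.drop_nonneg (by positivity) (by omega) (hb v hv).1 (hb v hv).2
  have hgap : ∀ v ∈ W, min ((F.M x.1 (S.rank v + 1) - F.M x.1 (S.rank v)) ^ 2) (a ^ 2) ≤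
      F.drop (2 * a) v := by
    intro v hv
    obtain ⟨-, h2, -, h4, h5⟩ := F.win_facts ha hx hv
    have hlt := (F.mem_win.mp hv).2.2
    -- there is `j ∈ inn v` outside `x.1`
    have hex : ∃ j ∈ S.inn v, j ∉ x.1 := by
      by_contra hcon
      push Not at hcon
      have h6 := Finset.card_le_card (show S.inn v ⊆ x.1 from hcon)
      rw [bal_inn_card (hb v hv).1, (F.mem_Act.mp hx).1.1] at h6
      omega
    obtain ⟨j, hj, hjx⟩ := hex
    rw [h2]
    rw [h2] at hlt
    exact F.drop_gap ha (by omega) (hb v hv).1 (hb v hv).2 h5 hj (h4 j hj hjx) hlt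
  have hsum := F.win_sum ha hx
  rw [← hW] at hsum
  by_cases hbig : ∃ v ∈ W, a ≤ F.M x.1 (S.rank v + 1) - F.M x.1 (S.rank v)
  · obtain ⟨v, hv, hva⟩ := hbig
    have h1 : a ^ 2 ≤ F.drop (2 * a) v := by
      refine le_trans ?_ (hgap v hv)
      rw [le_min_iff]
      exact ⟨by gcongr, le_rfl⟩
    have h2 : F.drop (2 * a) v ≤ ∑ v ∈ W, F.drop (2 * a) v :=
      Finset.single_le_sum (f := F.drop (2 * a)) hnn hv
    have h3 : a ^ 2 / 4 * (1 / (W.card : ℝ)) ≤ a ^ 2 := by
      rw [mul_one_div, div_le_iff₀ (by linarith)]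
      nlinarith [sq_nonneg a]
    linarith
  · push Not at hbig
    have h1 : ∑ v ∈ W, (F.M x.1 (S.rank v + 1) - F.M x.1 (S.rank v)) ^ 2 ≤
        ∑ v ∈ W, F.drop (2 * a) v := by
      refine Finset.sum_le_sum fun v hv => le_trans ?_ (hgap v hv)
      have h0 : 0 ≤ F.M x.1 (S.rank v + 1) - F.M x.1 (S.rank v) :=
        (sub_pos.mpr (F.mem_win.mp hv).2.2).le
      have h1 := hbig v hv
      rw [le_min_iff]
      exact ⟨le_rfl, by gcongr⟩
    have h2 := sq_sum_le_card_mul_sum_sq (s := W)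
      (f := fun v => F.M x.1 (S.rank v + 1) - F.M x.1 (S.rank v))
    have h3 : (a / 2) ^ 2 ≤ (∑ v ∈ W, (F.M x.1 (S.rank v + 1) - F.M x.1 (S.rank v))) ^ 2 := by
      gcongr
    rw [mul_one_div, div_le_iff₀ (by linarith)]
    nlinarith

/-- The main recursive estimate. -/
lemma card_Act_le {a : ℝ} (ha : 0 < a) (hk : 2 ≤ k) (T : ℕ) :
    ((F.Act a T).card : ℝ) ≤ ((2 * k).choose (k - 1)) * ((unb S : ℝ) + 1) +
      ((2 * k).choose (k - 1)) *
        Real.sqrt (F.cnt (k * a / 2) * (32 * k * unb S + 16 / a)) := by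
  classical
  set c1 : ℝ := ((2 * k).choose (k - 1) : ℝ) with hc1
  have hc1nn : 0 ≤ c1 := Nat.cast_nonneg _
  set Ab := (F.Act a T).filter fun x => ∀ v ∈ F.win a x, S.Bal v ∧ v ≠ v0 with hAb
  set Au := (F.Act a T).filter fun x => ¬ ∀ v ∈ F.win a x, S.Bal v ∧ v ≠ v0 with hAu
  have hsplit : (F.Act a T).card = Ab.card + Au.card := by
    rw [hAb, hAu, Finset.card_filter_add_card_filter_not]
  -- unbalanced windows
  have hu : (Au.card : ℝ) ≤ c1 * ((unb S : ℝ) + 1) := by
    have h1 : (Au.card : ℝ) ≤ ∑ x ∈ Au, ∑ v ∈ F.win a x, (if ¬ (S.Bal v ∧ v ≠ v0) then (1 : ℝ) else 0) := by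
      calc (Au.card : ℝ) = ∑ _x ∈ Au, (1 : ℝ) := by simp
        _ ≤ _ := by
          refine Finset.sum_le_sum fun x hx => ?_
          have hx' := (Finset.mem_filter.mp hx).2
          push Not at hx'
          obtain ⟨v, hv, hvb⟩ := hx'
          have : (1 : ℝ) = if ¬ (S.Bal v ∧ v ≠ v0) then (1 : ℝ) else 0 := by
            rw [if_pos]
            rintro ⟨h1, h2⟩
            exact h2 (hvb h1)
          refine this.le.trans (Finset.single_le_sum
            (f := fun v => if ¬ (S.Bal v ∧ v ≠ v0) then (1 : ℝ) else 0) (fun w _ => ?_) hv)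
          split_ifs <;> norm_num
    have h2 := F.sum_win_le ha Au (Finset.filter_subset _ _) Finset.univ
      (fun _ _ => Finset.subset_univ _) (fun v => if ¬ (S.Bal v ∧ v ≠ v0) then (1 : ℝ) else 0)
      (fun v => by split_ifs <;> norm_num)
    have h3 : ∑ v : V, (if ¬ (S.Bal v ∧ v ≠ v0) then (1 : ℝ) else 0) ≤ (unb S : ℝ) + 1 := by
      calc ∑ v : V, (if ¬ (S.Bal v ∧ v ≠ v0) then (1 : ℝ) else 0)
          ≤ ∑ v : V, ((if ¬ S.Bal v then (1 : ℝ) else 0) + (if v = v0 then 1 else 0)) := by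
            refine Finset.sum_le_sum fun v _ => ?_
            by_cases hv : v = v0 <;> by_cases hb : S.Bal v <;> simp [hv, hb]
            all_goals split_ifs <;> norm_num
        _ = _ := by
            rw [Finset.sum_add_distrib]
            congr 1
            · rw [← Finset.sum_filter, Finset.sum_const, nsmul_eq_mul, mul_one]
              unfold unb
              rfl
            · simp
    calc (Au.card : ℝ) ≤ _ := h1
      _ ≤ _ := h2
      _ ≤ _ := by gcongr
  -- balanced windows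
  have hbal : (Ab.card : ℝ) ≤ c1 * Real.sqrt (F.cnt (k * a / 2) * (32 * k * unb S + 16 / a)) := by
    set Y := Finset.univ.filter fun v => S.Bal v ∧ v ≠ v0 ∧ (k : ℝ) * a / 2 ≤ F.p v with hY
    have hYc : (Y.card : ℝ) = F.cnt (k * a / 2) := by
      unfold cnt
      rw [hY]
    have hwinY : ∀ x ∈ Ab, F.win a x ⊆ Y := by
      intro x hx v hv
      have hx' := Finset.mem_filter.mp hx
      have hbv := hx'.2 v hv
      rw [hY, Finset.mem_filter]
      refine ⟨Finset.mem_univ _, hbv.1, hbv.2, ?_⟩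
      have h1 := F.win_half ha hx'.1 hv
      rw [(F.win_facts ha hx'.1 hv).2.1] at h1
      have h2 := F.card_mul_g v
      rw [show ((S.out v).card : ℝ) = k by exact_mod_cast hbv.1] at h2
      have hk0 : (0 : ℝ) < k := by exact_mod_cast (by omega : 0 < k)
      nlinarith
    have hs1 : ∑ x ∈ Ab, ((F.win a x).card : ℝ) ≤ c1 * F.cnt (k * a / 2) := by
      have h1 := F.sum_win_le ha Ab (Finset.filter_subset _ _) Y hwinY (fun _ => 1)
        (fun _ => zero_le_one)
      simp only [Finset.sum_const, nsmul_eq_mul, mul_one] at h1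
      rw [hYc] at h1
      exact h1
    have hs2 : ∑ x ∈ Ab, (1 / ((F.win a x).card : ℝ)) ≤
        c1 * (32 * k * unb S + 16 / a) := by
      have h1 : ∑ x ∈ Ab, (a ^ 2 / 4 * (1 / ((F.win a x).card : ℝ))) ≤
          ∑ x ∈ Ab, ∑ v ∈ F.win a x, F.drop (2 * a) v :=
        Finset.sum_le_sum fun x hx => F.win_drop ha hk (Finset.mem_filter.mp hx).1
          (Finset.mem_filter.mp hx).2
      set Z := Finset.univ.filter fun v => S.Bal v ∧ v ≠ v0 with hZ
      have h2 : ∑ x ∈ Ab, ∑ v ∈ F.win a x, F.drop (2 * a) v ≤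
          c1 * ∑ v ∈ Z, F.drop (2 * a) v := by
        have h3 := F.sum_win_le ha Ab (Finset.filter_subset _ _) Z
          (fun x hx v hv => by
            rw [hZ, Finset.mem_filter]
            exact ⟨Finset.mem_univ _, (Finset.mem_filter.mp hx).2 v hv⟩)
          (fun v => if S.Bal v ∧ v ≠ v0 then F.drop (2 * a) v else 0)
          (fun v => by
            split_ifs with h
            · exact F.drop_nonneg (by positivity) (by omega) h.1 h.2
            · exact le_rfl)
        have h4 : ∀ x ∈ Ab, ∑ v ∈ F.win a x, (if S.Bal v ∧ v ≠ v0 then F.drop (2 * a) v else 0) =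
            ∑ v ∈ F.win a x, F.drop (2 * a) v := by
          intro x hx
          refine Finset.sum_congr rfl fun v hv => ?_
          rw [if_pos ((Finset.mem_filter.mp hx).2 v hv)]
        have h5 : ∑ v ∈ Z, (if S.Bal v ∧ v ≠ v0 then F.drop (2 * a) v else 0) =
            ∑ v ∈ Z, F.drop (2 * a) v := by
          refine Finset.sum_congr rfl fun v hv => ?_
          rw [if_pos (Finset.mem_filter.mp hv).2]
        rw [Finset.sum_congr rfl h4, h5] at h3
        exact h3
      have h3 := F.sum_drop_bal_le (κ := 2 * a) (by positivity)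
      rw [← hZ] at h3
      rw [← Finset.mul_sum] at h1
      have h4 : a ^ 2 / 4 * ∑ x ∈ Ab, (1 / ((F.win a x).card : ℝ)) ≤
          c1 * ((unb S : ℝ) * (2 * k * (2 * a) ^ 2) + 2 * (2 * a)) :=
        (h1.trans h2).trans (by gcongr)
      have h5 : a ^ 2 / 4 * (c1 * (32 * k * unb S + 16 / a)) =
          c1 * ((unb S : ℝ) * (2 * k * (2 * a) ^ 2) + 2 * (2 * a)) := by
        field_simp
        ring
      rw [← h5] at h4
      exact le_of_mul_le_mul_left h4 (by positivity)
    have hcs : (Ab.card : ℝ) ^ 2 ≤ (∑ x ∈ Ab, ((F.win a x).card : ℝ)) *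
        ∑ x ∈ Ab, (1 / ((F.win a x).card : ℝ)) := by
      have := Finset.sum_sq_le_sum_mul_sum_of_sq_le_mul Ab (r := fun _ => (1 : ℝ))
        (f := fun x => ((F.win a x).card : ℝ)) (g := fun x => 1 / ((F.win a x).card : ℝ))
        (fun x _ => Nat.cast_nonneg _) (fun x _ => one_div_nonneg.mpr (Nat.cast_nonneg _))
        (fun x hx => by
          have hne := F.win_nonempty ha (Finset.mem_filter.mp hx).1
          have : (0 : ℝ) < (F.win a x).card := by exact_mod_cast Finset.card_pos.mpr hne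
          rw [one_pow, mul_one_div_cancel this.ne'])
      rwa [Finset.sum_const, nsmul_eq_mul, mul_one] at this
    have hfin : (Ab.card : ℝ) ^ 2 ≤ c1 ^ 2 * (F.cnt (k * a / 2) * (32 * k * unb S + 16 / a)) := by
      have hpos : 0 ≤ ∑ x ∈ Ab, (1 / ((F.win a x).card : ℝ)) :=
        Finset.sum_nonneg fun x _ => one_div_nonneg.mpr (Nat.cast_nonneg _)
      have hpos2 : 0 ≤ c1 * (F.cnt (k * a / 2) : ℝ) := mul_nonneg hc1nn (Nat.cast_nonneg _)
      have h7 := hcs.trans (mul_le_mul hs1 hs2 hpos hpos2)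
      have h8 : c1 * (F.cnt (k * a / 2) : ℝ) * (c1 * (32 * k * unb S + 16 / a)) =
        c1 ^ 2 * (F.cnt (k * a / 2) * (32 * k * unb S + 16 / a)) := by ring
      rwa [h8] at h7
    have h6 := Real.sqrt_le_sqrt hfin
    rw [Real.sqrt_sq (Nat.cast_nonneg _), Real.sqrt_mul (sq_nonneg c1), Real.sqrt_sq hc1nn] at h6
    exact h6
  rw [hsplit]
  push_cast
  linarith

end Flow

end Pool.Agent.Hhelper78.RandomEdge
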