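import Mathlib

/-!
# The random-edge simplex method: definitions
-/

open scoped ENNReal
open Matrix

namespace Pool.Agent.Hhelper78.RandomEdge

/-- The polyhedron `{x | A x ≤ b}`. -/
def poly {d n : ℕ} (A : Matrix (Fin n) (Fin d) ℝ) (b : Fin n → ℝ) : Set (Fin d → ℝ) :=
  {x | ∀ i, A i ⬝ᵥ x ≤ b i}

open Classical in
/-- The set of (indices of) facets containing the point `x`. -/
noncomputable def tight {d n : ℕ} (A : Matrix (Fin n) (Fin d) ℝ) (b : Fin n → ℝ)
    (x : Fin d → ℝ) : Finset (Fin n) :=
  Finset.univ.filter fun i => A i ⬝ᵥ x = b i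

/-- `v` and `w` are distinct vertices of the polytope `P` joined by an edge, that is, the segment
`[v, w]` is a face of `P`. -/
def Adj {d : ℕ} (P : Set (Fin d → ℝ)) (v w : Fin d → ℝ) : Prop :=
  v ∈ P.extremePoints ℝ ∧ w ∈ P.extremePoints ℝ ∧ v ≠ w ∧ IsExtreme ℝ P (segment ℝ v w)

/-- An instance `(P, c, v₀)` with parameters `d` and `n`: a simple `d`-polytope
`P = {x | A x ≤ b}` with `n` facets, a generic objective `c` and a start vertex `v₀`. -/
structure LPInstance (d n : ℕ) where
  /-- the normals of the facets -/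
  A : Matrix (Fin n) (Fin d) ℝ
  /-- the right-hand sides -/
  b : Fin n → ℝ
  /-- the objective -/
  c : Fin d → ℝ
  /-- the start vertex -/
  v₀ : Fin d → ℝ
  /-- `P` is bounded -/
  bounded : Bornology.IsBounded (poly A b)
  /-- `P` is full-dimensional -/
  fullDim : (interior (poly A b)).Nonempty
  /-- no inequality is redundant, so the `n` inequalities correspond to `n` facets -/
  irredundant : ∀ i, ∃ x, (∀ j, j ≠ i → A j ⬝ᵥ x ≤ b j) ∧ b i < A i ⬝ᵥ x
  /-- `P` is simple: every vertex lies in exactly `d` facets -/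
  simple : ∀ v ∈ (poly A b).extremePoints ℝ, (tight A b v).card = d
  /-- `c` is generic: adjacent vertices have different values -/
  generic : ∀ v w, Adj (poly A b) v w → c ⬝ᵥ v ≠ c ⬝ᵥ w
  /-- `v₀` is a vertex -/
  start : v₀ ∈ (poly A b).extremePoints ℝ

namespace LPInstance

variable {d n : ℕ} (L : LPInstance d n)

/-- The improving neighbours of `v`. -/
def improving (v : Fin d → ℝ) : Set (Fin d → ℝ) :=
  {w | Adj (poly L.A L.b) v w ∧ L.c ⬝ᵥ v < L.c ⬝ᵥ w}

open Classical in
/-- Transition probabilities of the random-edge rule: uniform on the improving neighbours; no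
transition if there are none. -/
noncomputable def stepProb (v w : Fin d → ℝ) : ℝ≥0∞ :=
  if w ∈ L.improving v then ((L.improving v).ncard : ℝ≥0∞)⁻¹ else 0

open Classical in
/-- `walk t w` is the probability that the walk makes at least `t` pivot steps and is at `w`
after `t` of them. -/
noncomputable def walk : ℕ → (Fin d → ℝ) → ℝ≥0∞
  | 0, w => if w = L.v₀ then 1 else 0
  | t + 1, w => ∑' v, walk t v * L.stepProb v w

/-- The expected number of pivot steps, `∑_{t ≥ 1} P(at least t steps are made)`. -/
noncomputable def expectedSteps : ℝ≥0∞ := ∑' t, ∑' w, L.walk (t + 1) w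

end LPInstance

/-- `R(d, n)`: the supremum of the expected number of pivot steps over all instances. -/
noncomputable def R (d n : ℕ) : ℝ≥0∞ := ⨆ L : LPInstance d n, L.expectedSteps

end Pool.Agent.Hhelper78.RandomEdge
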