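import Pool.Agent.Hhelper78.RandomEdge.System
import Pool.Agent.Hhelper78.RandomEdge.Bound

/-!
# From the random walk to the combinatorial flow
-/

open scoped ENNReal
open Matrix

namespace Pool.Agent.Hhelper78.RandomEdge

variable {k n : ℕ} (L : LPInstance (2 * k) n)

lemma improving_eq (v : Vert L) :
    L.improving v.1 = (fun i => (nbV L v i).1) '' (outV L v : Set (Fin n)) := by
  ext w
  constructor
  · rintro ⟨h1, h2⟩
    obtain ⟨i, hi, rfl⟩ := nb_of_adj L v w h1
    exact ⟨i, (mem_outV L).mpr ⟨hi, h2⟩, rfl⟩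
  · rintro ⟨i, hi, rfl⟩
    have := (mem_outV L).mp hi
    exact ⟨adj_nb L v i this.1, this.2⟩

lemma ncard_improving (v : Vert L) : (L.improving v.1).ncard = (outV L v).card := by
  rw [improving_eq, Set.InjOn.ncard_image, Set.ncard_coe_finset]
  intro i hi j hj h
  exact nb_inj L v ((mem_outV L).mp hi).1 ((mem_outV L).mp hj).1 (Subtype.ext h)

lemma mem_improving (v w : Vert L) :
    w.1 ∈ L.improving v.1 ↔ ∃ j ∈ (sys L).inn w, nbV L w j = v := by
  rw [improving_eq]
  constructor
  · rintro ⟨i, hi, h⟩
    have hw : nbV L v i = w := Subtype.ext h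
    subst hw
    have hI := ((mem_outV L).mp hi).1
    refine ⟨ixV L v i, ?_, nb_nb' L v i hI⟩
    exact (sys L).mem_inn.mpr ⟨ix_mem' L v i hI, (out_iff' L v i hI).mp hi⟩
  · rintro ⟨j, hj, rfl⟩
    refine ⟨ixV L w j, ?_, ?_⟩
    · exact (sys L).nb_inn hj
    · simp only
      rw [nb_nb' L w j ((sys L).mem_inn.mp hj).1]

lemma stepProb_eq (v w : Vert L) : L.stepProb v.1 w.1 =
    if (∃ j ∈ (sys L).inn w, nbV L w j = v) then ((outV L v).card : ℝ≥0∞)⁻¹ else 0 := by
  classical
  unfold LPInstance.stepProb
  simp only [mem_improving, ncard_improving]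

lemma walk_eq_zero (t : ℕ) (w : Fin (2 * k) → ℝ) (hw : w ∉ (poly L.A L.b).extremePoints ℝ) :
    L.walk t w = 0 := by
  classical
  cases t with
  | zero =>
    unfold LPInstance.walk
    rw [if_neg]
    rintro rfl
    exact hw L.start
  | succ t =>
    unfold LPInstance.walk
    rw [ENNReal.tsum_eq_zero]
    intro v
    have : L.stepProb v w = 0 := by
      unfold LPInstance.stepProb
      rw [if_neg]
      intro h
      exact hw h.1.2.1
    rw [this, mul_zero]

lemma tsum_vert (f : (Fin (2 * k) → ℝ) → ℝ≥0∞)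
    (hf : ∀ w, w ∉ (poly L.A L.b).extremePoints ℝ → f w = 0) :
    ∑' w, f w = ∑ v : Vert L, f v.1 := by
  rw [← tsum_fintype (L := SummationFilter.unconditional _)]
  symm
  apply tsum_subtype_eq_of_support_subset (f := f) (s := (poly L.A L.b).extremePoints ℝ)
  intro w hw
  by_contra hcon
  exact hw (hf w hcon)

/-- expected number of visits -/
noncomputable def pE (w : Fin (2 * k) → ℝ) : ℝ≥0∞ := ∑' t, L.walk t w

lemma pE_rec (w : Vert L) : pE L w.1 = (if w.1 = L.v₀ then 1 else 0) +
    ∑ j ∈ (sys L).inn w, pE L (nbV L w j).1 * ((outV L (nbV L w j)).card : ℝ≥0∞)⁻¹ := by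
  classical
  have h1 : pE L w.1 = L.walk 0 w.1 + ∑' t, L.walk (t + 1) w.1 := by
    unfold pE
    exact tsum_eq_zero_add' ENNReal.summable
  have h2 : ∑' t, L.walk (t + 1) w.1 = ∑ v : Vert L, pE L v.1 * L.stepProb v.1 w.1 := by
    calc ∑' t, L.walk (t + 1) w.1 = ∑' t, ∑' v, L.walk t v * L.stepProb v w.1 := by
          refine tsum_congr fun t => ?_
          rw [LPInstance.walk]
      _ = ∑' v, ∑' t, L.walk t v * L.stepProb v w.1 := ENNReal.tsum_comm
      _ = ∑' v, pE L v * L.stepProb v w.1 := by
          refine tsum_congr fun v => ?_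
          rw [ENNReal.tsum_mul_right]
          rfl
      _ = _ := by
          apply tsum_vert L (fun v => pE L v * L.stepProb v w.1)
          intro v hv
          have : pE L v = 0 := by
            unfold pE
            rw [ENNReal.tsum_eq_zero]
            exact fun t => walk_eq_zero L t v hv
          simp only [this, zero_mul]
  rw [h1, h2]
  have h0 : L.walk 0 w.1 = if w.1 = L.v₀ then 1 else 0 := by
    unfold LPInstance.walk
    rfl
  rw [h0]
  congr 1
  · calc ∑ v : Vert L, pE L v.1 * L.stepProb v.1 w.1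
        = ∑ v : Vert L, if (∃ j ∈ (sys L).inn w, nbV L w j = v) then
            pE L v.1 * ((outV L v).card : ℝ≥0∞)⁻¹ else 0 := by
          refine Finset.sum_congr rfl fun v _ => ?_
          rw [stepProb_eq]
          split_ifs <;> simp
      _ = ∑ v ∈ ((sys L).inn w).image (nbV L w), pE L v.1 * ((outV L v).card : ℝ≥0∞)⁻¹ := by
          rw [← Finset.sum_filter]
          congr 1
          ext v
          simp
      _ = _ := by
          rw [Finset.sum_image]
          intro i hi j hj h
          exact nb_inj L w ((sys L).mem_inn.mp hi).1 ((sys L).mem_inn.mp hj).1 h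

lemma pE_ne_top (w : Vert L) : pE L w.1 ≠ ⊤ := by
  classical
  induction hr : (sys L).rank w using Nat.strong_induction_on generalizing w with
  | _ m ih =>
    rw [pE_rec]
    refine ENNReal.add_ne_top.mpr ⟨by split_ifs <;> simp, ?_⟩
    rw [ENNReal.sum_ne_top]
    intro j hj
    refine ENNReal.mul_ne_top (ih ((sys L).rank (nbV L w j)) (by rw [← hr]; exact (sys L).rank_nb_lt hj) _ rfl) ?_
    rw [ENNReal.inv_ne_top]
    have h : ixV L w j ∈ outV L (nbV L w j) := (sys L).nb_inn hj
    have : 0 < (outV L (nbV L w j)).card := Finset.card_pos.mpr ⟨_, h⟩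
    exact_mod_cast this.ne'

/-- the flow of the walk -/
noncomputable def flow : Flow (sys L) ⟨L.v₀, L.start⟩ where
  p v := (pE L v.1).toReal
  nonneg _ := ENNReal.toReal_nonneg
  rec_eq w := by
    classical
    rw [pE_rec, ENNReal.toReal_add (by split_ifs <;> simp)]
    · congr 1
      · have : (w.1 = L.v₀) ↔ (w = ⟨L.v₀, L.start⟩) := by
          rw [Subtype.ext_iff]
        by_cases h : w.1 = L.v₀
        · rw [if_pos h, if_pos (this.mp h)]; simp
        · rw [if_neg h, if_neg (fun h' => h (this.mpr h'))]; simp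
      · rw [ENNReal.toReal_sum]
        · refine Finset.sum_congr rfl fun j hj => ?_
          rw [ENNReal.toReal_mul, ENNReal.toReal_inv, ENNReal.toReal_natCast, div_eq_mul_inv]
          rfl
        · intro j hj
          refine ENNReal.mul_ne_top (pE_ne_top L _) ?_
          rw [ENNReal.inv_ne_top]
          have h : ixV L w j ∈ outV L (nbV L w j) := (sys L).nb_inn hj
          have : 0 < (outV L (nbV L w j)).card := Finset.card_pos.mpr ⟨_, h⟩
          exact_mod_cast this.ne'
    · rw [ENNReal.sum_ne_top]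
      intro j hj
      refine ENNReal.mul_ne_top (pE_ne_top L _) ?_
      rw [ENNReal.inv_ne_top]
      have h : ixV L w j ∈ outV L (nbV L w j) := (sys L).nb_inn hj
      have : 0 < (outV L (nbV L w j)).card := Finset.card_pos.mpr ⟨_, h⟩
      exact_mod_cast this.ne'

lemma expectedSteps_le : L.expectedSteps ≤ ENNReal.ofReal (∑ v, (flow L).p v) := by
  classical
  have h1 : L.expectedSteps = ∑' w, ∑' t, L.walk (t + 1) w := ENNReal.tsum_comm
  rw [h1]
  calc ∑' w, ∑' t, L.walk (t + 1) w ≤ ∑' w, pE L w := by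
        refine ENNReal.tsum_le_tsum fun w => ?_
        unfold pE
        rw [tsum_eq_zero_add' (f := fun t => L.walk t w) ENNReal.summable]
        exact le_add_self
    _ = ∑ v : Vert L, pE L v.1 := by
        apply tsum_vert L (fun v => pE L v)
        intro v hv
        unfold pE
        rw [ENNReal.tsum_eq_zero]
        exact fun t => walk_eq_zero L t v hv
    _ = ENNReal.ofReal (∑ v, (flow L).p v) := by
        rw [ENNReal.ofReal_sum_of_nonneg (fun v _ => (flow L).nonneg v)]
        refine Finset.sum_congr rfl fun v _ => ?_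
        exact (ENNReal.ofReal_toReal (pE_ne_top L v)).symm

/-- **Main bound.** -/
theorem R_le (k : ℕ) (hk : 2 ≤ k) (n : ℕ) :
    R (2 * k) n ≤ ENNReal.ofReal (Flow.CC k * (n : ℝ) ^ ((k : ℝ) - 1 / 2)) := by
  unfold R
  refine iSup_le fun L => ?_
  have hn : 1 ≤ n := by
    have h1 := L.simple _ L.start
    have h2 := Finset.card_le_univ (tight L.A L.b L.v₀)
    rw [Fintype.card_fin] at h2
    omega
  exact (expectedSteps_le L).trans (ENNReal.ofReal_le_ofReal ((flow L).sum_p_le hk hn))

end Pool.Agent.Hhelper78.RandomEdge
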