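import Pool.Agent.Hhelper78.RandomEdge.Defs
import Pool.Agent.Hhelper78.RandomEdge.Bound

/-!
# Geometry of simple polytopes
-/

open scoped ENNReal Topology
open Matrix Filter

namespace Pool.Agent.Hhelper78.RandomEdge

variable {d n : ℕ} {A : Matrix (Fin n) (Fin d) ℝ} {b : Fin n → ℝ}

lemma mem_tight {x : Fin d → ℝ} {i : Fin n} : i ∈ tight A b x ↔ A i ⬝ᵥ x = b i := by
  classical
  simp [tight]

lemma ext_mem {v : Fin d → ℝ} (hv : v ∈ (poly A b).extremePoints ℝ) : v ∈ poly A b := hv.1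

/-- A direction killed by all tight constraints can be followed both ways for a short time. -/
lemma exists_eps {x u : Fin d → ℝ} (hx : x ∈ poly A b) (hu : ∀ i ∈ tight A b x, A i ⬝ᵥ u = 0) :
    ∃ ε : ℝ, 0 < ε ∧ x + ε • u ∈ poly A b ∧ x - ε • u ∈ poly A b := by
  have h1 : ∀ i, ∀ᶠ ε in 𝓝[>] (0 : ℝ), A i ⬝ᵥ (x + ε • u) ≤ b i ∧ A i ⬝ᵥ (x - ε • u) ≤ b i := by
    intro i
    simp only [dotProduct_add, dotProduct_sub, dotProduct_smul, smul_eq_mul]
    by_cases hi : i ∈ tight A b x
    · refine Eventually.of_forall fun ε => ?_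
      rw [hu i hi, mem_tight.mp hi]
      simp
    · have hlt : A i ⬝ᵥ x < b i := lt_of_le_of_ne (hx i) fun h => hi (mem_tight.mpr h)
      have c1 : ContinuousAt (fun ε : ℝ => A i ⬝ᵥ x + ε * (A i ⬝ᵥ u)) 0 := by fun_prop
      have c2 : ContinuousAt (fun ε : ℝ => A i ⬝ᵥ x - ε * (A i ⬝ᵥ u)) 0 := by fun_prop
      have e1 : ∀ᶠ ε in 𝓝 (0 : ℝ), A i ⬝ᵥ x + ε * (A i ⬝ᵥ u) < b i :=
        c1.eventually_lt continuousAt_const (by simpa using hlt)
      have e2 : ∀ᶠ ε in 𝓝 (0 : ℝ), A i ⬝ᵥ x - ε * (A i ⬝ᵥ u) < b i :=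
        c2.eventually_lt continuousAt_const (by simpa using hlt)
      filter_upwards [nhdsWithin_le_nhds e1, nhdsWithin_le_nhds e2] with ε h1 h2
      exact ⟨h1.le, h2.le⟩
  have h2 := (eventually_all.mpr h1).and (self_mem_nhdsWithin (a := (0 : ℝ)) (s := Set.Ioi 0))
  obtain ⟨ε, hε, hpos⟩ := h2.exists
  exact ⟨ε, hpos, fun i => (hε i).1, fun i => (hε i).2⟩

lemma mem_openSegment_pm (x u : Fin d → ℝ) (ε : ℝ) :
    x ∈ openSegment ℝ (x + ε • u) (x - ε • u) := by
  refine ⟨1 / 2, 1 / 2, by norm_num, by norm_num, by norm_num, ?_⟩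
  ext j
  simp only [Pi.add_apply, Pi.smul_apply, Pi.sub_apply, smul_eq_mul]
  ring

lemma ext_ker {v u : Fin d → ℝ} (hv : v ∈ (poly A b).extremePoints ℝ)
    (hu : ∀ i ∈ tight A b v, A i ⬝ᵥ u = 0) : u = 0 := by
  obtain ⟨ε, hε, h1, h2⟩ := exists_eps hv.1 hu
  have h3 := hv.2 h1 h2 (mem_openSegment_pm v u ε)
  have h4 : ε • u = 0 := by simpa using h3
  exact (smul_eq_zero.mp h4).resolve_left hε.ne'

/-- points of an open segment: tight constraints are tight at the ends -/
lemma tight_of_openSegment {x y z : Fin d → ℝ} (hx : x ∈ poly A b) (hy : y ∈ poly A b)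
    (hz : z ∈ openSegment ℝ x y) {i : Fin n} (hi : i ∈ tight A b z) :
    i ∈ tight A b x ∧ i ∈ tight A b y := by
  obtain ⟨s, t, hs, ht, hst, rfl⟩ := hz
  rw [mem_tight, dotProduct_add, dotProduct_smul, dotProduct_smul, smul_eq_mul, smul_eq_mul] at hi
  have h1 := hx i
  have h2 := hy i
  rw [mem_tight, mem_tight]
  have hs' : s = 1 - t := by linarith
  subst hs'
  constructor
  · by_contra hne
    have h3 : A i ⬝ᵥ x < b i := lt_of_le_of_ne h1 hne
    nlinarith
  · by_contra hne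
    have h3 : A i ⬝ᵥ y < b i := lt_of_le_of_ne h2 hne
    nlinarith

lemma ker_ext {x : Fin d → ℝ} (hx : x ∈ poly A b)
    (h : ∀ u : Fin d → ℝ, (∀ i ∈ tight A b x, A i ⬝ᵥ u = 0) → u = 0) :
    x ∈ (poly A b).extremePoints ℝ := by
  refine ⟨hx, fun y hy z hz hxyz => ?_⟩
  have h1 : y - x = 0 := by
    apply h
    intro i hi
    have := (tight_of_openSegment hy hz hxyz hi).1
    rw [dotProduct_sub, mem_tight.mp this, mem_tight.mp hi, sub_self]
  exact sub_eq_zero.mp h1

lemma eq_of_tight {v w : Fin d → ℝ} (hv : v ∈ (poly A b).extremePoints ℝ)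
    (h : tight A b v ⊆ tight A b w) : w = v := by
  have : w - v = 0 := ext_ker hv fun i hi => by
    rw [dotProduct_sub, mem_tight.mp (h hi), mem_tight.mp hi, sub_self]
  exact sub_eq_zero.mp this

/-- The tight normals at a vertex of a simple polytope form a basis. -/
lemma exists_dual {v : Fin d → ℝ} (hv : v ∈ (poly A b).extremePoints ℝ)
    (hc : (tight A b v).card = d) (f : Fin n → ℝ) : ∃ u : Fin d → ℝ,
      ∀ i ∈ tight A b v, A i ⬝ᵥ u = f i := by
  let T : (Fin d → ℝ) →ₗ[ℝ] ({i // i ∈ tight A b v} → ℝ) :=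
    { toFun := fun u i => A i.1 ⬝ᵥ u
      map_add' := fun u w => by ext i; exact dotProduct_add _ _ _
      map_smul' := fun r u => by ext i; exact dotProduct_smul _ _ _ }
  have hinj : Function.Injective T := by
    rw [← LinearMap.ker_eq_bot, LinearMap.ker_eq_bot']
    intro u hu
    exact ext_ker hv fun i hi => congrFun hu ⟨i, hi⟩
  have hfin : Module.finrank ℝ (Fin d → ℝ) = Module.finrank ℝ ({i // i ∈ tight A b v} → ℝ) := by
    rw [Module.finrank_fin_fun, Module.finrank_fintype_fun_eq_card, Fintype.card_coe, hc]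
  have hsurj := (LinearMap.injective_iff_surjective_of_finrank_eq_finrank hfin).mp hinj
  obtain ⟨u, hu⟩ := hsurj fun i => f i.1
  exact ⟨u, fun i hi => congrFun hu ⟨i, hi⟩⟩

/-- the direction of the edge at `v` leaving the facet `i` -/
lemma exists_dir {v : Fin d → ℝ} (hv : v ∈ (poly A b).extremePoints ℝ)
    (hc : (tight A b v).card = d) {i : Fin n} (hi : i ∈ tight A b v) : ∃ u : Fin d → ℝ,
      A i ⬝ᵥ u = -1 ∧ ∀ l ∈ (tight A b v).erase i, A l ⬝ᵥ u = 0 := by
  classical
  obtain ⟨u, hu⟩ := exists_dual hv hc (fun l => if l = i then -1 else 0)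
  refine ⟨u, by rw [hu i hi, if_pos rfl], fun l hl => ?_⟩
  rw [Finset.mem_erase] at hl
  rw [hu l hl.2, if_neg hl.1]

/-- Points agreeing with `v` on all tight constraints but `i` lie on the edge line. -/
lemma on_line {v u x : Fin d → ℝ} (hv : v ∈ (poly A b).extremePoints ℝ) {i : Fin n}
    (hi : i ∈ tight A b v) (hu : A i ⬝ᵥ u = -1) (hu' : ∀ l ∈ (tight A b v).erase i, A l ⬝ᵥ u = 0)
    (hx : x ∈ poly A b) (hx' : (tight A b v).erase i ⊆ tight A b x) :
    ∃ s : ℝ, 0 ≤ s ∧ x = v + s • u := by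
  refine ⟨-(A i ⬝ᵥ (x - v)), ?_, ?_⟩
  · rw [dotProduct_sub, mem_tight.mp hi]
    have := hx i
    linarith
  · have : x - v - (-(A i ⬝ᵥ (x - v))) • u = 0 := by
      apply ext_ker hv
      intro l hl
      rw [dotProduct_sub, dotProduct_smul, smul_eq_mul]
      by_cases hli : l = i
      · subst hli
        rw [hu]; ring
      · have hl' : l ∈ (tight A b v).erase i := Finset.mem_erase.mpr ⟨hli, hl⟩
        rw [hu' l hl', dotProduct_sub, mem_tight.mp (hx' hl'), mem_tight.mp hl]
        ring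
    rw [sub_sub, sub_eq_zero] at this
    exact this

lemma mem_openSegment_ray {v u : Fin d → ℝ} {s t : ℝ} (hs : 0 < s) (hst : s < t) :
    v + s • u ∈ openSegment ℝ v (v + t • u) := by
  have ht : 0 < t := hs.trans hst
  refine ⟨1 - s / t, s / t, ?_, by positivity, by ring, ?_⟩
  · rw [sub_pos, div_lt_one ht]; exact hst
  · ext j
    simp only [Pi.add_apply, Pi.smul_apply, smul_eq_mul]
    field_simp
    ring

/-- At most one neighbour across each facet. -/
lemma nbr_unique {v w w' : Fin d → ℝ} (hv : v ∈ (poly A b).extremePoints ℝ)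
    (hc : (tight A b v).card = d) {i : Fin n} (hi : i ∈ tight A b v)
    (hw : w ∈ (poly A b).extremePoints ℝ) (hw' : w' ∈ (poly A b).extremePoints ℝ)
    (hne : w ≠ v) (hne' : w' ≠ v) (h : (tight A b v).erase i ⊆ tight A b w)
    (h' : (tight A b v).erase i ⊆ tight A b w') : w = w' := by
  obtain ⟨u, hu, hu'⟩ := exists_dir hv hc hi
  obtain ⟨s, hs, rfl⟩ := on_line hv hi hu hu' hw.1 h
  obtain ⟨t, ht, rfl⟩ := on_line hv hi hu hu' hw'.1 h'
  have hs0 : 0 < s := lt_of_le_of_ne hs fun h0 => hne (by rw [← h0]; simp)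
  have ht0 : 0 < t := lt_of_le_of_ne ht fun h0 => hne' (by rw [← h0]; simp)
  rcases lt_trichotomy s t with hst | hst | hst
  · exact absurd (hw.2 hv.1 hw'.1 (mem_openSegment_ray hs0 hst)).symm hne
  · rw [hst]
  · exact absurd (hw'.2 hv.1 hw.1 (mem_openSegment_ray ht0 hst)).symm hne'

/-- At least one neighbour across each facet. -/
lemma exists_nbr (hbd : Bornology.IsBounded (poly A b))
    (hsimple : ∀ v ∈ (poly A b).extremePoints ℝ, (tight A b v).card = d)
    {v : Fin d → ℝ} (hv : v ∈ (poly A b).extremePoints ℝ) {i : Fin n} (hi : i ∈ tight A b v) :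
    ∃ w ∈ (poly A b).extremePoints ℝ, w ≠ v ∧ ∃ j, j ∉ tight A b v ∧
      tight A b w = insert j ((tight A b v).erase i) := by
  classical
  obtain ⟨u, hu, hu'⟩ := exists_dir hv (hsimple v hv) hi
  have hu0 : u ≠ 0 := by
    rintro rfl
    rw [dotProduct_zero] at hu
    norm_num at hu
  -- blocking constraints
  set B := Finset.univ.filter fun l => 0 < A l ⬝ᵥ u with hB
  have hBne : B.Nonempty := by
    by_contra hcon
    rw [Finset.not_nonempty_iff_eq_empty] at hcon
    have hall : ∀ l, A l ⬝ᵥ u ≤ 0 := by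
      intro l
      by_contra h
      have : l ∈ B := Finset.mem_filter.mpr ⟨Finset.mem_univ _, not_le.mp h⟩
      rw [hcon] at this
      exact absurd this (Finset.notMem_empty l)
    obtain ⟨r, hr⟩ := hbd.exists_norm_le
    have hray : ∀ t : ℝ, 0 ≤ t → v + t • u ∈ poly A b := by
      intro t ht l
      rw [dotProduct_add, dotProduct_smul, smul_eq_mul]
      have h1 := hv.1 l
      have h2 := hall l
      nlinarith
    have hnu : 0 < ‖u‖ := norm_pos_iff.mpr hu0
    have h3 := hr _ (hray ((r + ‖v‖ + 1) / ‖u‖) (by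
      have : 0 ≤ r := le_trans (norm_nonneg _) (hr v hv.1)
      positivity))
    have h4 : ‖((r + ‖v‖ + 1) / ‖u‖) • u‖ ≤ ‖v + ((r + ‖v‖ + 1) / ‖u‖) • u‖ + ‖v‖ := by
      have := norm_sub_le (v + ((r + ‖v‖ + 1) / ‖u‖) • u) v
      rwa [add_sub_cancel_left] at this
    rw [norm_smul, Real.norm_eq_abs, abs_of_nonneg (by
      have : 0 ≤ r := le_trans (norm_nonneg _) (hr v hv.1)
      positivity), div_mul_cancel₀ _ hnu.ne'] at h4
    linarith
  obtain ⟨j, hjB, hjmin⟩ := Finset.exists_min_image B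
    (fun l => (b l - A l ⬝ᵥ v) / (A l ⬝ᵥ u)) hBne
  have hju : 0 < A j ⬝ᵥ u := (Finset.mem_filter.mp hjB).2
  have hjt : j ∉ tight A b v := by
    intro hj
    by_cases hji : j = i
    · subst hji; rw [hu] at hju; linarith
    · have := hu' j (Finset.mem_erase.mpr ⟨hji, hj⟩)
      linarith
  have hjs : A j ⬝ᵥ v < b j := lt_of_le_of_ne (hv.1 j) fun h => hjt (mem_tight.mpr h)
  set t := (b j - A j ⬝ᵥ v) / (A j ⬝ᵥ u) with ht
  have htpos : 0 < t := div_pos (by linarith) hju
  have hwP : v + t • u ∈ poly A b := by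
    intro l
    rw [dotProduct_add, dotProduct_smul, smul_eq_mul]
    by_cases hl : 0 < A l ⬝ᵥ u
    · have := hjmin l (Finset.mem_filter.mpr ⟨Finset.mem_univ _, hl⟩)
      have h2 : t ≤ (b l - A l ⬝ᵥ v) / (A l ⬝ᵥ u) := this
      rw [le_div_iff₀ hl] at h2
      linarith
    · have := hv.1 l
      nlinarith [not_lt.mp hl]
  have hwj : j ∈ tight A b (v + t • u) := by
    rw [mem_tight, dotProduct_add, dotProduct_smul, smul_eq_mul, ht, div_mul_cancel₀ _ hju.ne']
    ring
  have hwl : (tight A b v).erase i ⊆ tight A b (v + t • u) := by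
    intro l hl
    rw [mem_tight, dotProduct_add, dotProduct_smul, smul_eq_mul, hu' l hl,
      mem_tight.mp (Finset.mem_of_mem_erase hl)]
    ring
  have hwne : v + t • u ≠ v := by
    intro h
    have : t • u = 0 := by simpa using h
    exact hu0 ((smul_eq_zero.mp this).resolve_left htpos.ne')
  have hwext : v + t • u ∈ (poly A b).extremePoints ℝ := by
    apply ker_ext hwP
    intro y hy
    have h1 : y - (-(A i ⬝ᵥ y)) • u = 0 := by
      apply ext_ker hv
      intro l hl
      rw [dotProduct_sub, dotProduct_smul, smul_eq_mul]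
      by_cases hli : l = i
      · subst hli; rw [hu]; ring
      · have hl' : l ∈ (tight A b v).erase i := Finset.mem_erase.mpr ⟨hli, hl⟩
        rw [hu' l hl', hy l (hwl hl')]; ring
    have h2 : y = (-(A i ⬝ᵥ y)) • u := sub_eq_zero.mp h1
    have h3 := hy j hwj
    rw [h2, dotProduct_smul, smul_eq_mul] at h3
    have h4 : -(A i ⬝ᵥ y) = 0 := (mul_eq_zero.mp h3).resolve_right hju.ne'
    rw [h2, h4, zero_smul]
  refine ⟨v + t • u, hwext, hwne, j, hjt, ?_⟩
  symm
  apply Finset.eq_of_subset_of_card_le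
  · intro l hl
    rw [Finset.mem_insert] at hl
    rcases hl with rfl | hl
    · exact hwj
    · exact hwl hl
  · rw [hsimple _ hwext, Finset.card_insert_of_notMem (fun h => hjt (Finset.mem_of_mem_erase h)),
      Finset.card_erase_of_mem hi, hsimple v hv]
    have : 0 < d := by
      rw [← hsimple v hv]; exact Finset.card_pos.mpr ⟨i, hi⟩
    omega

end Pool.Agent.Hhelper78.RandomEdge
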