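import Pool.Agent.Hhelper78.RandomEdge.Geometry

/-!
# Adjacency and the combinatorial system of an instance
-/

open scoped ENNReal Topology
open Matrix Filter

namespace Pool.Agent.Hhelper78.RandomEdge

variable {d n : ℕ} {A : Matrix (Fin n) (Fin d) ℝ} {b : Fin n → ℝ}

lemma tight_segment {v w z : Fin d → ℝ} (hz : z ∈ segment ℝ v w) {i : Fin n}
    (hv : i ∈ tight A b v) (hw : i ∈ tight A b w) : i ∈ tight A b z := by
  obtain ⟨s, t, hs, ht, hst, rfl⟩ := hz
  rw [mem_tight] at *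
  rw [dotProduct_add, dotProduct_smul, dotProduct_smul, hv, hw, smul_eq_mul, smul_eq_mul,
    ← add_mul, hst, one_mul]

lemma poly_convex : Convex ℝ (poly A b) := by
  intro x hx y hy s t hs ht hst i
  rw [dotProduct_add, dotProduct_smul, dotProduct_smul, smul_eq_mul, smul_eq_mul]
  have h1 := hx i
  have h2 := hy i
  have : b i = s * b i + t * b i := by rw [← add_mul, hst, one_mul]
  rw [this]
  gcongr

/-- Vertices sharing all but one of their facets are adjacent. -/
lemma adj_of_tight {v w : Fin d → ℝ} (hv : v ∈ (poly A b).extremePoints ℝ)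
    (hc : (tight A b v).card = d) (hw : w ∈ (poly A b).extremePoints ℝ) (hne : w ≠ v) {i : Fin n}
    (hi : i ∈ tight A b v) (h : (tight A b v).erase i ⊆ tight A b w) :
    Adj (poly A b) v w := by
  refine ⟨hv, hw, hne.symm, poly_convex.segment_subset hv.1 hw.1, ?_⟩
  intro x hx y hy z hz hzxy
  obtain ⟨u, hu, hu'⟩ := exists_dir hv hc hi
  have htight : (tight A b v).erase i ⊆ tight A b x := by
    intro l hl
    have h1 : l ∈ tight A b z := tight_segment hz (Finset.mem_of_mem_erase hl) (h hl)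
    exact (tight_of_openSegment hx hy hzxy h1).1
  obtain ⟨s, hs, rfl⟩ := on_line hv hi hu hu' hx htight
  obtain ⟨t, ht, rfl⟩ := on_line hv hi hu hu' hw.1 h
  have ht0 : 0 < t := lt_of_le_of_ne ht fun h0 => hne (by rw [← h0]; simp)
  rcases le_or_gt s t with hst | hst
  · refine ⟨1 - s / t, s / t, ?_, by positivity, by ring, ?_⟩
    · rw [sub_nonneg, div_le_one ht0]; exact hst
    · ext j
      simp only [Pi.add_apply, Pi.smul_apply, smul_eq_mul]
      field_simp
      ring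
  · exfalso
    exact hne (hw.2 hv.1 hx (mem_openSegment_ray ht0 hst)).symm

/-- Adjacent vertices share all but one of their facets. -/
lemma tight_of_adj {v w : Fin d → ℝ} (hc : (tight A b v).card = d)
    (h : Adj (poly A b) v w) : ∃ i ∈ tight A b v, (tight A b v).erase i ⊆ tight A b w := by
  classical
  obtain ⟨hv, hw, hne, hsub, hext⟩ := h
  have hnot : ¬ tight A b v ⊆ tight A b w := fun hcon => hne (eq_of_tight hv hcon).symm
  obtain ⟨i, hi, hiw⟩ := Finset.not_subset.mp hnot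
  refine ⟨i, hi, fun l hl => ?_⟩
  by_contra hlw
  rw [Finset.mem_erase] at hl
  -- the midpoint
  set m : Fin d → ℝ := (1 / 2 : ℝ) • v + (1 / 2 : ℝ) • w with hm
  have hmo : m ∈ openSegment ℝ v w := ⟨1 / 2, 1 / 2, by norm_num, by norm_num, by norm_num, rfl⟩
  have hms : m ∈ segment ℝ v w := openSegment_subset_segment ℝ v w hmo
  have key : ∀ u : Fin d → ℝ, (∀ r ∈ tight A b m, A r ⬝ᵥ u = 0) → ∃ s : ℝ, u = s • (w - v) := by
    intro u hu
    obtain ⟨ε, hε, h1, h2⟩ := exists_eps (hsub hms) hu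
    have h3 := hext h1 h2 hms (mem_openSegment_pm m u ε)
    rw [segment_eq_image'] at h3
    obtain ⟨θ, -, hθ⟩ := h3
    refine ⟨(θ - 1 / 2) / ε, ?_⟩
    have h4 : ε • u = (θ - 1 / 2) • (w - v) := by
      have : ε • u = (v + θ • (w - v)) - m := by
        have hθ' : v + θ • (w - v) = m + ε • u := hθ
        rw [hθ']; simp
      rw [this, hm]
      ext j
      simp only [Pi.add_apply, Pi.smul_apply, Pi.sub_apply, smul_eq_mul]
      ring
    rw [div_eq_inv_mul, mul_smul, ← h4, smul_smul, inv_mul_cancel₀ hε.ne', one_smul]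
  obtain ⟨u1, hu1, hu1'⟩ := exists_dir hv hc hi
  obtain ⟨u2, hu2, hu2'⟩ := exists_dir hv hc hl.2
  have hmt : ∀ r ∈ tight A b m, r ∈ tight A b v ∧ r ≠ i ∧ r ≠ l := by
    intro r hr
    have := tight_of_openSegment hv.1 hw.1 hmo hr
    refine ⟨this.1, ?_, ?_⟩
    · rintro rfl; exact hiw this.2
    · rintro rfl; exact hlw this.2
  obtain ⟨s1, hs1⟩ := key u1 fun r hr => hu1' r (Finset.mem_erase.mpr ⟨(hmt r hr).2.1, (hmt r hr).1⟩)
  obtain ⟨s2, hs2⟩ := key u2 fun r hr => hu2' r (Finset.mem_erase.mpr ⟨(hmt r hr).2.2, (hmt r hr).1⟩)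
  -- A i u1 = -1, A i u2 = 0
  have e1 : A i ⬝ᵥ u2 = 0 := hu2' i (Finset.mem_erase.mpr ⟨fun h => hl.1 h.symm, hi⟩)
  rw [hs1, dotProduct_smul, smul_eq_mul] at hu1
  rw [hs2, dotProduct_smul, smul_eq_mul] at e1 hu2
  have h5 : A i ⬝ᵥ (w - v) ≠ 0 := by
    intro h0; rw [h0, mul_zero] at hu1; norm_num at hu1
  have h6 : s2 = 0 := (mul_eq_zero.mp e1).resolve_right h5
  rw [h6, zero_mul] at hu2
  norm_num at hu2

/-- the cone at a vertex -/
lemma cone {v x : Fin d → ℝ} (hv : v ∈ (poly A b).extremePoints ℝ) (u : Fin n → Fin d → ℝ)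
    (hu : ∀ i ∈ tight A b v, A i ⬝ᵥ u i = -1 ∧ ∀ l ∈ (tight A b v).erase i, A l ⬝ᵥ u i = 0) :
    x - v = ∑ i ∈ tight A b v, (b i - A i ⬝ᵥ x) • u i := by
  classical
  rw [← sub_eq_zero]
  apply ext_ker hv
  intro l hl
  rw [dotProduct_sub, dotProduct_sum]
  rw [Finset.sum_eq_single l]
  · rw [dotProduct_smul, (hu l hl).1, dotProduct_sub, mem_tight.mp hl, smul_eq_mul]
    ring
  · intro i hi hil
    rw [dotProduct_smul, (hu i hi).2 l (Finset.mem_erase.mpr ⟨hil.symm, hl⟩), smul_zero]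
  · intro h; exact absurd hl h

end Pool.Agent.Hhelper78.RandomEdge
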