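import Mathlib

/-!
# The Huber function
-/

namespace Pool.Agent.Hhelper78.RandomEdge

/-- quadratic up to `κ`, linear afterwards -/
noncomputable def huber (κ x : ℝ) : ℝ := if x ≤ κ then x ^ 2 else 2 * κ * x - κ ^ 2

variable {κ : ℝ}

lemma huber_zero (hκ : 0 < κ) : huber κ 0 = 0 := by
  simp [huber, hκ.le]

lemma huber_nonneg (hκ : 0 < κ) {x : ℝ} : 0 ≤ huber κ x := by
  unfold huber
  split_ifs with h
  · positivity
  · nlinarith

lemma huber_le_lin (hκ : 0 < κ) {x : ℝ} (hx : 0 ≤ x) : huber κ x ≤ 2 * κ * x := by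
  unfold huber
  split_ifs with h
  · nlinarith
  · nlinarith

lemma huber_add (hκ : 0 < κ) {a b : ℝ} (ha : 0 ≤ a) (hb : 0 ≤ b) :
    huber κ (a + b) ≤ huber κ a + huber κ b + κ ^ 2 := by
  unfold huber
  split_ifs with h1 h2 h3 h3 h2 h3 h3
  · nlinarith
  · nlinarith
  · nlinarith
  · nlinarith
  · nlinarith [sq_nonneg (κ - a), sq_nonneg (κ - b), sq_nonneg (a - b)]
  · nlinarith [sq_nonneg (κ - a)]
  · nlinarith [sq_nonneg (κ - b)]
  · nlinarith

lemma huber_sum (hκ : 0 < κ) {ι : Type*} (s : Finset ι) (h : ι → ℝ) (hh : ∀ i ∈ s, 0 ≤ h i) :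
    huber κ (∑ i ∈ s, h i) ≤ ∑ i ∈ s, huber κ (h i) + s.card * κ ^ 2 := by
  classical
  induction s using Finset.induction_on with
  | empty => simp [huber_zero hκ]
  | insert a s ha ih =>
    rw [Finset.sum_insert ha, Finset.sum_insert ha, Finset.card_insert_of_notMem ha]
    have h1 := ih fun i hi => hh i (Finset.mem_insert_of_mem hi)
    have h2 := huber_add hκ (hh a (Finset.mem_insert_self a s))
      (Finset.sum_nonneg fun i hi => hh i (Finset.mem_insert_of_mem hi))
    push_cast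
    linarith

lemma huber_mul (hκ : 0 < κ) {x : ℝ} (hx : 0 ≤ x) (j : ℕ) :
    j * huber κ x ≤ huber κ (j * x) := by
  rcases Nat.eq_zero_or_pos j with rfl | hj
  · simp [huber_zero hκ]
  have hj1 : (1 : ℝ) ≤ j := by exact_mod_cast hj
  have hj0 : (0 : ℝ) ≤ (j : ℝ) - 1 := by linarith
  unfold huber
  split_ifs with h1 h2 h2
  · have : (j : ℝ) * x ^ 2 ≤ j * (j * x ^ 2) := by
      have : 0 ≤ x ^ 2 := by positivity
      nlinarith [mul_nonneg hj0 this]
    calc (j : ℝ) * x ^ 2 ≤ j * (j * x ^ 2) := this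
      _ = _ := by ring
  · have h3 : κ < j * x := not_le.mp h2
    have h4 : 0 ≤ κ - x := by linarith
    nlinarith [mul_nonneg (sub_nonneg.mpr h3.le) h4, mul_pos hκ hκ]
  · exfalso
    have : x ≤ j * x := by nlinarith
    exact h1 (le_trans this h2)
  · nlinarith [mul_nonneg hj0 (sq_nonneg κ)]

/-- the supporting line inequality -/
lemma huber_tangent (hκ : 0 < κ) {x g : ℝ} (hx : 0 ≤ x) (hg : 0 ≤ g) :
    0 ≤ huber κ x - huber κ g - 2 * min g κ * (x - g) := by
  unfold huber
  rcases le_total g κ with h | h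
  · rw [min_eq_left h, if_pos h]
    split_ifs with h1
    · nlinarith [sq_nonneg (x - g)]
    · have h1' : κ < x := not_le.mp h1
      nlinarith [mul_nonneg (sub_nonneg.mpr h) (sub_nonneg.mpr h1'.le), sq_nonneg (κ - g)]
  · rw [min_eq_right h]
    rcases eq_or_lt_of_le h with h0 | h0
    · subst h0
      rw [if_pos le_rfl]
      split_ifs with h1
      · nlinarith [sq_nonneg (x - κ)]
      · nlinarith
    · rw [if_neg (not_le.mpr h0)]
      split_ifs with h1
      · nlinarith [sq_nonneg (x - κ)]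
      · nlinarith

lemma huber_gap (hκ : 0 < κ) {h M g : ℝ} (h0 : 0 ≤ h) (hM : h ≤ M) (hg : M < g)
    (hMκ : M ≤ κ / 2) :
    min ((g - M) ^ 2) ((κ / 2) ^ 2) ≤ huber κ h - huber κ g - 2 * min g κ * (h - g) := by
  have hhκ : h ≤ κ := by linarith
  unfold huber
  rw [if_pos hhκ]
  rcases le_or_gt g κ with h1 | h1
  · rw [min_eq_left h1, if_pos h1]
    refine (min_le_left _ _).trans ?_
    nlinarith
  · rw [min_eq_right h1.le, if_neg (not_le.mpr h1)]
    refine (min_le_right _ _).trans ?_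
    nlinarith

end Pool.Agent.Hhelper78.RandomEdge
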