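import Pool.Agent.Hhelper78.RandomEdge.Geometry2

/-!
# The combinatorial system of an instance, and the final bound
-/

open scoped ENNReal Topology
open Matrix Filter

namespace Pool.Agent.Hhelper78.RandomEdge

/-- an injective ranking compatible with a real function -/
lemma exists_rank {V : Type} [Fintype V] (c : V → ℝ) :
    ∃ r : V → ℕ, Function.Injective r ∧ ∀ v w, c v < c w → r v < r w := by
  classical
  let e := Fintype.equivFin V
  let key : V → Lex (ℝ × Fin (Fintype.card V)) := fun v => toLex (c v, e v)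
  have hkey : Function.Injective key := by
    intro v w h
    have : (c v, e v) = (c w, e w) := toLex.injective h
    exact e.injective (Prod.ext_iff.mp this).2
  have hmono : ∀ v w, key v < key w →
      (Finset.univ.filter fun x => key x < key v).card < (Finset.univ.filter fun x => key x < key w).card := by
    intro v w h
    apply Finset.card_lt_card
    rw [Finset.ssubset_iff_of_subset]
    · refine ⟨v, Finset.mem_filter.mpr ⟨Finset.mem_univ _, h⟩, ?_⟩
      rw [Finset.mem_filter]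
      exact fun h => lt_irrefl _ h.2
    · intro x hx
      rw [Finset.mem_filter] at hx ⊢
      exact ⟨hx.1, hx.2.trans h⟩
  refine ⟨fun v => (Finset.univ.filter fun x => key x < key v).card, ?_, ?_⟩
  · intro v w h
    simp only at h
    rcases lt_trichotomy (key v) (key w) with h1 | h1 | h1
    · exact absurd h (hmono v w h1).ne
    · exact hkey h1
    · exact absurd h.symm (hmono w v h1).ne
  · intro v w h
    exact hmono v w (Prod.Lex.toLex_lt_toLex.mpr (Or.inl h))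

variable {k n : ℕ} (L : LPInstance (2 * k) n)

/-- the type of vertices -/
abbrev Vert : Type := {v : Fin (2 * k) → ℝ // v ∈ (poly L.A L.b).extremePoints ℝ}

noncomputable instance : Fintype (Vert L) := by
  have : Function.Injective fun v : Vert L => tight L.A L.b v.1 := by
    intro v w h
    exact Subtype.ext (eq_of_tight w.2 (le_of_eq h.symm))
  exact Fintype.ofInjective _ this

noncomputable instance : DecidableEq (Vert L) := Classical.decEq _

lemma exists_nbr' (v : Vert L) (i : Fin n) : ∃ (w : Vert L) (j : Fin n), i ∈ tight L.A L.b v.1 →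
    w.1 ≠ v.1 ∧ j ∉ tight L.A L.b v.1 ∧
      tight L.A L.b w.1 = insert j ((tight L.A L.b v.1).erase i) := by
  by_cases hi : i ∈ tight L.A L.b v.1
  · obtain ⟨w, hw, hne, j, hj, heq⟩ := exists_nbr L.bounded L.simple v.2 hi
    exact ⟨⟨w, hw⟩, j, fun _ => ⟨hne, hj, heq⟩⟩
  · exact ⟨v, i, fun h => absurd h hi⟩

/-- the neighbour across a facet -/
noncomputable def nbV (v : Vert L) (i : Fin n) : Vert L := (exists_nbr' L v i).choose

/-- the entering facet -/
noncomputable def ixV (v : Vert L) (i : Fin n) : Fin n := (exists_nbr' L v i).choose_spec.choose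

lemma nb_spec (v : Vert L) (i : Fin n) (hi : i ∈ tight L.A L.b v.1) :
    (nbV L v i).1 ≠ v.1 ∧ ixV L v i ∉ tight L.A L.b v.1 ∧
      tight L.A L.b (nbV L v i).1 = insert (ixV L v i) ((tight L.A L.b v.1).erase i) :=
  (exists_nbr' L v i).choose_spec.choose_spec hi

lemma erase_sub_nb (v : Vert L) (i : Fin n) (hi : i ∈ tight L.A L.b v.1) :
    (tight L.A L.b v.1).erase i ⊆ tight L.A L.b (nbV L v i).1 := by
  rw [(nb_spec L v i hi).2.2]
  exact Finset.subset_insert _ _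

lemma nb_eq (v w : Vert L) (i : Fin n) (hi : i ∈ tight L.A L.b v.1) (hne : w.1 ≠ v.1)
    (h : (tight L.A L.b v.1).erase i ⊆ tight L.A L.b w.1) : nbV L v i = w :=
  Subtype.ext (nbr_unique v.2 (L.simple _ v.2) hi (nbV L v i).2 w.2 (nb_spec L v i hi).1 hne
    (erase_sub_nb L v i hi) h)

lemma ix_mem' (v : Vert L) (i : Fin n) (hi : i ∈ tight L.A L.b v.1) :
    ixV L v i ∈ tight L.A L.b (nbV L v i).1 := by
  rw [(nb_spec L v i hi).2.2]
  exact Finset.mem_insert_self _ _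

lemma erase_eq' (v : Vert L) (i : Fin n) (hi : i ∈ tight L.A L.b v.1) :
    (tight L.A L.b v.1).erase i = (tight L.A L.b (nbV L v i).1).erase (ixV L v i) := by
  rw [(nb_spec L v i hi).2.2, Finset.erase_insert]
  exact fun h => (nb_spec L v i hi).2.1 (Finset.mem_of_mem_erase h)

lemma nb_nb' (v : Vert L) (i : Fin n) (hi : i ∈ tight L.A L.b v.1) :
    nbV L (nbV L v i) (ixV L v i) = v := by
  apply nb_eq L _ _ _ (ix_mem' L v i hi) (nb_spec L v i hi).1.symm
  rw [← erase_eq' L v i hi]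
  exact Finset.erase_subset _ _

lemma ix_ix' (v : Vert L) (i : Fin n) (hi : i ∈ tight L.A L.b v.1) :
    ixV L (nbV L v i) (ixV L v i) = i := by
  have h1 := (nb_spec L (nbV L v i) (ixV L v i) (ix_mem' L v i hi)).2.2
  rw [nb_nb' L v i hi, ← erase_eq' L v i hi] at h1
  have h2 : i ∈ insert (ixV L (nbV L v i) (ixV L v i)) ((tight L.A L.b v.1).erase i) := by
    rw [← h1]; exact hi
  rw [Finset.mem_insert] at h2
  rcases h2 with h2 | h2
  · exact h2.symm
  · exact absurd rfl (Finset.mem_erase.mp h2).1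

lemma adj_nb (v : Vert L) (i : Fin n) (hi : i ∈ tight L.A L.b v.1) :
    Adj (poly L.A L.b) v.1 (nbV L v i).1 :=
  adj_of_tight v.2 (L.simple _ v.2) (nbV L v i).2 (nb_spec L v i hi).1 hi (erase_sub_nb L v i hi)

lemma nb_of_adj (v : Vert L) (w : Fin (2 * k) → ℝ) (h : Adj (poly L.A L.b) v.1 w) :
    ∃ i ∈ tight L.A L.b v.1, (nbV L v i).1 = w := by
  obtain ⟨i, hi, hsub⟩ := tight_of_adj (L.simple _ v.2) h
  exact ⟨i, hi, congrArg Subtype.val (nb_eq L v ⟨w, h.2.1⟩ i hi h.2.2.1.symm hsub)⟩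

lemma nb_inj (v : Vert L) {i j : Fin n} (hi : i ∈ tight L.A L.b v.1) (hj : j ∈ tight L.A L.b v.1)
    (h : nbV L v i = nbV L v j) : i = j := by
  by_contra hne
  have h1 : i ∈ tight L.A L.b (nbV L v j).1 :=
    erase_sub_nb L v j hj (Finset.mem_erase.mpr ⟨hne, hi⟩)
  rw [← h, (nb_spec L v i hi).2.2, Finset.mem_insert] at h1
  rcases h1 with h1 | h1
  · exact (nb_spec L v i hi).2.1 (h1 ▸ hi)
  · exact absurd rfl (Finset.mem_erase.mp h1).1

open Classical in
/-- facets dropped along improving edges -/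
noncomputable def outV (v : Vert L) : Finset (Fin n) :=
  (tight L.A L.b v.1).filter fun i => L.c ⬝ᵥ v.1 < L.c ⬝ᵥ (nbV L v i).1

lemma mem_outV {v : Vert L} {i : Fin n} : i ∈ outV L v ↔
    i ∈ tight L.A L.b v.1 ∧ L.c ⬝ᵥ v.1 < L.c ⬝ᵥ (nbV L v i).1 := by
  classical
  simp [outV]

lemma out_iff' (v : Vert L) (i : Fin n) (hi : i ∈ tight L.A L.b v.1) :
    (i ∈ outV L v ↔ ixV L v i ∉ outV L (nbV L v i)) := by
  rw [mem_outV, mem_outV, nb_nb' L v i hi]
  have hne := L.generic _ _ (adj_nb L v i hi)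
  constructor
  · rintro ⟨-, h⟩ ⟨-, h'⟩
    exact lt_asymm h h'
  · intro h
    refine ⟨hi, lt_of_le_of_ne ?_ hne⟩
    by_contra hcon
    exact h ⟨ix_mem' L v i hi, not_le.mp hcon⟩

/-- directions of the edges at `v` with the sign of their objective change -/
lemma exists_dirs (v : Vert L) : ∃ u : Fin n → Fin (2 * k) → ℝ,
    (∀ i ∈ tight L.A L.b v.1, L.A i ⬝ᵥ u i = -1 ∧
      ∀ l ∈ (tight L.A L.b v.1).erase i, L.A l ⬝ᵥ u i = 0) ∧
    (∀ i ∈ outV L v, 0 < L.c ⬝ᵥ u i) ∧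
    (∀ i ∈ tight L.A L.b v.1, i ∉ outV L v → L.c ⬝ᵥ u i < 0) := by
  classical
  have hc := L.simple _ v.2
  have h1 : ∀ i, ∃ u : Fin (2 * k) → ℝ, i ∈ tight L.A L.b v.1 → L.A i ⬝ᵥ u = -1 ∧
      ∀ l ∈ (tight L.A L.b v.1).erase i, L.A l ⬝ᵥ u = 0 := by
    intro i
    by_cases hi : i ∈ tight L.A L.b v.1
    · obtain ⟨u, hu⟩ := exists_dir v.2 hc hi
      exact ⟨u, fun _ => hu⟩
    · exact ⟨0, fun h => absurd h hi⟩
  choose u hu using h1
  have hline : ∀ i ∈ tight L.A L.b v.1, ∃ s : ℝ, 0 < s ∧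
      L.c ⬝ᵥ (nbV L v i).1 = L.c ⬝ᵥ v.1 + s * (L.c ⬝ᵥ u i) := by
    intro i hi
    obtain ⟨s, hs, hs'⟩ := on_line v.2 hi (hu i hi).1 (hu i hi).2 (nbV L v i).2.1
      (erase_sub_nb L v i hi)
    refine ⟨s, lt_of_le_of_ne hs fun h0 => (nb_spec L v i hi).1 (by rw [hs', ← h0]; simp), ?_⟩
    rw [hs', dotProduct_add, dotProduct_smul, smul_eq_mul]
  refine ⟨u, hu, ?_, ?_⟩
  · intro i hi
    rw [mem_outV] at hi
    obtain ⟨s, hs, hs'⟩ := hline i hi.1
    have h2 := hi.2
    rw [hs'] at h2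
    by_contra hcon
    nlinarith [not_lt.mp hcon]
  · intro i hi hout
    obtain ⟨s, hs, hs'⟩ := hline i hi
    have hne := L.generic _ _ (adj_nb L v i hi)
    have h2 : L.c ⬝ᵥ (nbV L v i).1 < L.c ⬝ᵥ v.1 := by
      refine lt_of_le_of_ne ?_ hne.symm
      by_contra hcon
      exact hout ((mem_outV L).mpr ⟨hi, not_le.mp hcon⟩)
    rw [hs'] at h2
    by_contra hcon
    nlinarith [not_lt.mp hcon]

/-- `v` is the unique minimiser on the face given by its in-facets. -/
lemma min_face (v w : Vert L) (h : tight L.A L.b v.1 \ outV L v ⊆ tight L.A L.b w.1)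
    (hle : L.c ⬝ᵥ w.1 ≤ L.c ⬝ᵥ v.1) : v = w := by
  classical
  obtain ⟨u, hu, hpos, -⟩ := exists_dirs L v
  have h1 := cone (x := w.1) v.2 u hu
  have h2 : L.c ⬝ᵥ (w.1 - v.1) = ∑ i ∈ tight L.A L.b v.1, (L.b i - L.A i ⬝ᵥ w.1) * (L.c ⬝ᵥ u i) := by
    rw [h1, dotProduct_sum]
    refine Finset.sum_congr rfl fun i _ => ?_
    rw [dotProduct_smul, smul_eq_mul]
  have hnn : ∀ i ∈ tight L.A L.b v.1, 0 ≤ (L.b i - L.A i ⬝ᵥ w.1) * (L.c ⬝ᵥ u i) := by
    intro i hi
    by_cases ho : i ∈ outV L v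
    · exact mul_nonneg (sub_nonneg.mpr (w.2.1 i)) (hpos i ho).le
    · rw [mem_tight.mp (h (Finset.mem_sdiff.mpr ⟨hi, ho⟩)), sub_self, zero_mul]
  have h3 : ∑ i ∈ tight L.A L.b v.1, (L.b i - L.A i ⬝ᵥ w.1) * (L.c ⬝ᵥ u i) = 0 := by
    apply le_antisymm _ (Finset.sum_nonneg hnn)
    rw [← h2, dotProduct_sub]
    linarith
  rw [Finset.sum_eq_zero_iff_of_nonneg hnn] at h3
  symm
  apply Subtype.ext
  apply eq_of_tight v.2
  intro i hi
  by_cases ho : i ∈ outV L v
  · have h4 := (mul_eq_zero.mp (h3 i hi)).resolve_right (hpos i ho).ne'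
    exact mem_tight.mpr (by linarith)
  · exact h (Finset.mem_sdiff.mpr ⟨hi, ho⟩)

/-- `v` is the unique maximiser on the face given by its out-facets. -/
lemma max_face (v w : Vert L) (h : outV L v ⊆ tight L.A L.b w.1)
    (hle : L.c ⬝ᵥ v.1 ≤ L.c ⬝ᵥ w.1) : v = w := by
  classical
  obtain ⟨u, hu, -, hneg⟩ := exists_dirs L v
  have h1 := cone (x := w.1) v.2 u hu
  have h2 : L.c ⬝ᵥ (w.1 - v.1) = ∑ i ∈ tight L.A L.b v.1, (L.b i - L.A i ⬝ᵥ w.1) * (L.c ⬝ᵥ u i) := by
    rw [h1, dotProduct_sum]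
    refine Finset.sum_congr rfl fun i _ => ?_
    rw [dotProduct_smul, smul_eq_mul]
  have hnn : ∀ i ∈ tight L.A L.b v.1, (L.b i - L.A i ⬝ᵥ w.1) * (L.c ⬝ᵥ u i) ≤ 0 := by
    intro i hi
    by_cases ho : i ∈ outV L v
    · rw [mem_tight.mp (h ho), sub_self, zero_mul]
    · exact mul_nonpos_of_nonneg_of_nonpos (sub_nonneg.mpr (w.2.1 i)) (hneg i hi ho).le
  have h3 : ∑ i ∈ tight L.A L.b v.1, (L.b i - L.A i ⬝ᵥ w.1) * (L.c ⬝ᵥ u i) = 0 := by
    apply le_antisymm (Finset.sum_nonpos hnn)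
    rw [← h2, dotProduct_sub]
    linarith
  rw [Finset.sum_eq_zero_iff_of_nonpos hnn] at h3
  symm
  apply Subtype.ext
  apply eq_of_tight v.2
  intro i hi
  by_cases ho : i ∈ outV L v
  · exact h ho
  · have h4 := (mul_eq_zero.mp (h3 i hi)).resolve_right (hneg i hi ho).ne
    exact mem_tight.mpr (by linarith)

/-- The combinatorial system of an instance. -/
noncomputable def sys : Sys (Vert L) n k where
  rank := (exists_rank fun v : Vert L => L.c ⬝ᵥ v.1).choose
  rank_inj := (exists_rank fun v : Vert L => L.c ⬝ᵥ v.1).choose_spec.1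
  I v := tight L.A L.b v.1
  out := outV L
  out_sub v i hi := ((mem_outV L).mp hi).1
  card_I v := L.simple _ v.2
  nb := nbV L
  ix := ixV L
  ix_mem := ix_mem' L
  erase_eq := erase_eq' L
  nb_nb := nb_nb' L
  ix_ix := ix_ix' L
  out_iff := out_iff' L
  rank_lt v i hi := (exists_rank fun v : Vert L => L.c ⬝ᵥ v.1).choose_spec.2 _ _
    ((mem_outV L).mp hi).2
  in_inj v w h := by
    rcases le_total (L.c ⬝ᵥ w.1) (L.c ⬝ᵥ v.1) with hle | hle
    · exact min_face L v w (h ▸ Finset.sdiff_subset) hle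
    · exact (min_face L w v (h ▸ Finset.sdiff_subset) hle).symm
  out_inj v w h := by
    rcases le_total (L.c ⬝ᵥ v.1) (L.c ⬝ᵥ w.1) with hle | hle
    · exact max_face L v w (h ▸ fun i hi => ((mem_outV L).mp hi).1) hle
    · exact (max_face L w v (h ▸ fun i hi => ((mem_outV L).mp hi).1) hle).symm

end Pool.Agent.Hhelper78.RandomEdge
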